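import Mathlib
import Pool.Agent.Lib.Helper95.Ord.MatrixRoots

/-!
# Characteristic polynomials, stable subspaces and isotropic subspaces
-/

namespace Pool.Agent.H43GS

open Polynomial Module

section mult

variable {k V : Type*} [Field k] [AddCommGroup V] [Module k V] [FiniteDimensional k V]

/-- Multiplicativity of characteristic polynomials. -/
theorem charpoly_eq_mul [Infinite k] (T : V →ₗ[k] V) (W : Submodule k V)
    (hW : W ≤ W.comap T) :
    T.charpoly = (T.restrict hW).charpoly * (W.mapQ W T hW).charpoly := by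
  apply Polynomial.funext
  intro t
  rw [eval_mul, LinearMap.eval_charpoly, LinearMap.eval_charpoly, LinearMap.eval_charpoly]
  have he : W ≤ W.comap (algebraMap k (V →ₗ[k] V) t - T) := by
    intro x hx
    rw [Submodule.mem_comap, LinearMap.sub_apply]
    exact W.sub_mem (W.smul_mem t hx) (hW hx)
  rw [LinearMap.det_eq_det_mul_det W _ he]
  have h1 : (algebraMap k (V →ₗ[k] V) t - T).restrict he =
      algebraMap k (W →ₗ[k] W) t - T.restrict hW := by
    ext x
    rfl
  have h2 : W.mapQ W (algebraMap k (V →ₗ[k] V) t - T) he =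
      algebraMap k (V ⧸ W →ₗ[k] V ⧸ W) t - W.mapQ W T hW := by
    ext x
    rfl
  rw [h1, h2]

/-- Characteristic polynomials of quotients. -/
theorem charpoly_dvd_of_surjective [Infinite k] {Y : Type*} [AddCommGroup Y] [Module k Y]
    [FiniteDimensional k Y] (T : V →ₗ[k] V) (S : Y →ₗ[k] Y) (F : V →ₗ[k] Y)
    (hF : Function.Surjective F) (hTS : ∀ x, F (T x) = S (F x)) : S.charpoly ∣ T.charpoly := by
  have hker : LinearMap.ker F ≤ (LinearMap.ker F).comap T := by
    intro x hx
    rw [Submodule.mem_comap, LinearMap.mem_ker, hTS, LinearMap.mem_ker.1 hx, map_zero]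
  rw [charpoly_eq_mul T (LinearMap.ker F) hker]
  apply Dvd.dvd.mul_left
  let e := F.quotKerEquivOfSurjective hF
  have h1 : S = e.conj ((LinearMap.ker F).mapQ (LinearMap.ker F) T hker) := by
    ext y
    obtain ⟨x, rfl⟩ := hF y
    rw [LinearEquiv.conj_apply_apply]
    have h2 : e.symm (F x) = (LinearMap.ker F).mkQ x := by
      rw [LinearEquiv.symm_apply_eq]
      rfl
    rw [h2, ← hTS]
    rfl
  rw [h1, LinearEquiv.charpoly_conj]

theorem charpoly_dualMap [Infinite k] (T : V →ₗ[k] V) : T.dualMap.charpoly = T.charpoly := by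
  apply Polynomial.funext
  intro t
  rw [LinearMap.eval_charpoly, LinearMap.eval_charpoly,
    ← LinearMap.det_dualMap (algebraMap k (End k V) t - T)]
  congr 1
  ext f x
  simp [LinearMap.dualMap_apply]

omit [FiniteDimensional k V] in
/-- The eigenvalues of `lam / T`. -/
theorem charpoly_inv {r : ℕ} (b : Basis (Fin r) k V) [Module.Free k V] [Module.Finite k V]
    (T S : V →ₗ[k] V) (lam : k) (hlam : lam ≠ 0)
    (hTS : T * S = lam • 1) {K : Type*} [Field K] [IsAlgClosed K] [Algebra k K]
    (z : Fin r → K) (hz : T.charpoly.map (algebraMap k K) = ∏ i, (X - C (z i))) :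
    S.charpoly.map (algebraMap k K) = ∏ i, (X - C (algebraMap k K lam / z i)) := by
  classical
  set M : Matrix (Fin r) (Fin r) K := (LinearMap.toMatrix b b T).map (algebraMap k K) with hM
  set N : Matrix (Fin r) (Fin r) K := (LinearMap.toMatrix b b S).map (algebraMap k K) with hN
  have hMc : M.charpoly = ∏ i, (X - C (z i)) := by
    rw [hM, Matrix.charpoly_map, LinearMap.charpoly_toMatrix, hz]
  have hNc : N.charpoly = S.charpoly.map (algebraMap k K) := by
    rw [hN, Matrix.charpoly_map, LinearMap.charpoly_toMatrix]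
  have hMN : M * N = algebraMap k K lam • (1 : Matrix (Fin r) (Fin r) K) := by
    rw [hM, hN, ← Matrix.map_mul, ← LinearMap.toMatrix_mul, hTS, map_smul,
      LinearMap.toMatrix_one]
    ext i j
    rw [Matrix.map_apply, Matrix.smul_apply, Matrix.smul_apply, smul_eq_mul, smul_eq_mul, map_mul,
      Matrix.one_apply, Matrix.one_apply]
    split_ifs <;> simp
  have hlam' : algebraMap k K lam ≠ 0 := by
    rw [Ne, map_eq_zero]
    exact hlam
  have hdet : M.det = ∏ i, z i := by
    have h1 := Pool.Agent.Ord.det_aeval hMc X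
    rw [aeval_X] at h1
    rw [h1]
    simp
  have hdet0 : M.det ≠ 0 := by
    intro h0
    have h1 := congrArg Matrix.det hMN
    rw [Matrix.det_mul, h0, zero_mul, Matrix.det_smul, Matrix.det_one, mul_one] at h1
    exact pow_ne_zero _ hlam' h1.symm
  have hz0 : ∀ i, z i ≠ 0 := by
    intro i hi
    apply hdet0
    rw [hdet]
    exact Finset.prod_eq_zero (Finset.mem_univ i) hi
  rw [← hNc]
  apply Polynomial.funext
  intro t
  apply mul_left_cancel₀ hdet0
  rw [Matrix.eval_charpoly, ← Matrix.det_mul, mul_sub, hMN]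
  have h1 : M * Matrix.scalar (Fin r) t - algebraMap k K lam • (1 : Matrix (Fin r) (Fin r) K) =
      aeval M (C t * X - C (algebraMap k K lam)) := by
    rw [map_sub, map_mul, aeval_X, aeval_C, aeval_C, Algebra.commutes]
    rw [Algebra.algebraMap_eq_smul_one (algebraMap k K lam)]
    rfl
  rw [h1, Pool.Agent.Ord.det_aeval hMc, hdet, eval_prod, ← Finset.prod_mul_distrib]
  refine Finset.prod_congr rfl fun i _ => ?_
  have := hz0 i
  simp only [eval_sub, eval_mul, eval_C, eval_X]
  field_simp

end mult

end Pool.Agent.H43GS
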