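import Mathlib
import Pool.Agent.Lib.H43.GS.Charpoly

/-!
# Eigenvalues of a similitude on isotropic subspaces
-/

namespace Pool.Agent.H43GS

open Polynomial Module

/-- The multiset `R` contains, with multiplicities, a multiset `S` of cardinality `r` together with
the multiset of all `lam / z`, `z ∈ S`, and the product over `S` of `z ^ 2 / lam` is a root of unity
of order dividing `N`. -/
def RelN {K : Type*} [Field K] (r N : ℕ) (R : Multiset K) (lam : K) : Prop :=
  ∃ S : Multiset K, Multiset.card S = r ∧ S + S.map (fun z => lam / z) ≤ R ∧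
    S.prod ^ (2 * N) = lam ^ (r * N)

theorem relN_iff {K : Type*} [Field K] [IsAlgClosed K] {r N : ℕ} {P : K[X]} (hP : P.Monic)
    {lam : K} : RelN r N P.roots lam ↔ ∃ z : Fin r → K,
      ((∏ i, (X - C (z i))) * ∏ i, (X - C (lam / z i))) ∣ P ∧ (∏ i, z i) ^ (2 * N) =
        lam ^ (r * N) := by
  have key : ∀ z : Fin r → K, ((∏ i, (X - C (z i))) * ∏ i, (X - C (lam / z i))).roots =
      Multiset.map z Finset.univ.val + Multiset.map (fun i => lam / z i) Finset.univ.val := by
    intro z
    have h1 : (∏ i, (X - C (z i))) ≠ 0 := (monic_prod_X_sub_C z Finset.univ).ne_zero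
    have h2 : (∏ i, (X - C (lam / z i))) ≠ 0 :=
      (monic_prod_X_sub_C (fun i => lam / z i) Finset.univ).ne_zero
    rw [roots_mul (mul_ne_zero h1 h2)]
    congr 1
    · have := roots_multiset_prod_X_sub_C (Multiset.map z Finset.univ.val)
      rw [Multiset.map_map] at this
      exact this
    · have := roots_multiset_prod_X_sub_C (Multiset.map (fun i => lam / z i) Finset.univ.val)
      rw [Multiset.map_map] at this
      exact this
  constructor
  · rintro ⟨S, hS, hle, hprod⟩
    obtain ⟨z, rfl⟩ := Pool.Agent.Ord.exists_fin_map S hS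
    refine ⟨z, ?_, ?_⟩
    · apply (Splits.dvd_iff_roots_le_roots (IsAlgClosed.splits _) ?_ hP.ne_zero).2
      · rw [key]
        rwa [Multiset.map_map] at hle
      · exact mul_ne_zero (monic_prod_X_sub_C z Finset.univ).ne_zero
          (monic_prod_X_sub_C (fun i => lam / z i) Finset.univ).ne_zero
    · exact hprod
  · rintro ⟨z, hdvd, hprod⟩
    refine ⟨Multiset.map z Finset.univ.val, ?_, ?_, hprod⟩
    · simp
    · have h1 := roots.le_of_dvd hP.ne_zero hdvd
      rw [key] at h1
      rwa [Multiset.map_map]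

section iso

variable {k V : Type*} [Field k] [Infinite k] [AddCommGroup V] [Module k V]
  [FiniteDimensional k V]

theorem isotropic_charpoly (T : V →ₗ[k] V) (B : V →ₗ[k] V →ₗ[k] k) (lam : k) (hlam : lam ≠ 0)
    (hB : ∀ x, (∀ y, B x y = 0) → x = 0) (hBT : ∀ x y, B (T x) (T y) = lam * B x y)
    (W : Submodule k V) (hW : ∀ x ∈ W, T x ∈ W) (hiso : ∀ x ∈ W, ∀ y ∈ W, B x y = 0)
    {K : Type*} [Field K] [IsAlgClosed K] [Algebra k K] :
    ∃ z : Fin (finrank k W) → K,
      ((∏ i, (X - C (z i))) * ∏ i, (X - C (algebraMap k K lam / z i))) ∣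
        T.charpoly.map (algebraMap k K) ∧
      ∏ i, z i = algebraMap k K (LinearMap.det (T.restrict hW)) := by
  classical
  have hW' : W ≤ W.comap T := hW
  set TW : W →ₗ[k] W := T.restrict hW with hTW
  have hTinj : Function.Injective T := by
    rw [← LinearMap.ker_eq_bot, LinearMap.ker_eq_bot']
    intro x hx
    apply hB
    intro y
    have h1 := hBT x y
    rw [hx, map_zero, LinearMap.zero_apply] at h1
    exact (mul_eq_zero.1 h1.symm).resolve_left hlam
  have hTWinj : Function.Injective TW := by
    intro x y hxy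
    apply Subtype.ext
    apply hTinj
    exact congrArg Subtype.val hxy
  let e : W ≃ₗ[k] W := LinearEquiv.ofInjectiveEndo TW hTWinj
  have he : ∀ x, TW (e.symm x) = x := fun x => e.apply_symm_apply x
  let S : Dual k W →ₗ[k] Dual k W := lam • (e.symm : W →ₗ[k] W).dualMap
  have hS : ∀ f x, S f x = lam * f (e.symm x) := fun f x => rfl
  -- the map to the dual
  let F : V →ₗ[k] Dual k W := LinearMap.lcomp k k W.subtype ∘ₗ B.flip
  have hF : ∀ (y : V) (x : W), F y x = B x y := fun y x => rfl
  have hFsurj : Function.Surjective F := by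
    -- the composite of the injection of `W` in the dual of `V` is dual to `F`
    let F' : W →ₗ[k] Dual k V := B ∘ₗ W.subtype
    have hF' : Function.Injective F' := by
      rw [← LinearMap.ker_eq_bot, LinearMap.ker_eq_bot']
      intro x hx
      apply Subtype.ext
      apply hB
      intro y
      exact LinearMap.congr_fun hx y
    have h1 : Function.Surjective F'.dualMap := LinearMap.dualMap_surjective_of_injective hF'
    intro f
    obtain ⟨g, hg⟩ := h1 f
    obtain ⟨y, hy⟩ := (Module.evalEquiv k V).surjective g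
    refine ⟨y, ?_⟩
    ext x
    rw [hF, ← hg, ← hy]
    rfl
  have hFW : W ≤ LinearMap.ker F := by
    intro y hy
    rw [LinearMap.mem_ker]
    ext x
    rw [hF]
    exact hiso x x.2 y hy
  let Fb : (V ⧸ W) →ₗ[k] Dual k W := W.liftQ F hFW
  have hFb : Function.Surjective Fb := by
    intro f
    obtain ⟨y, hy⟩ := hFsurj f
    exact ⟨W.mkQ y, hy⟩
  have hFS : ∀ x, Fb (W.mapQ W T hW' x) = S (Fb x) := by
    intro x
    obtain ⟨y, rfl⟩ := W.mkQ_surjective x
    change F (T y) = S (F y)
    ext x
    rw [hF, hS, hF, ← hBT]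
    congr 1
    have := congrArg Subtype.val (he x)
    rw [← this]
    rfl
  have hdvd := charpoly_dvd_of_surjective (W.mapQ W T hW') S Fb hFb hFS
  -- eigenvalues
  set r := finrank k W with hr
  let b : Basis (Fin r) k W := Module.finBasis k W
  let bd : Basis (Fin r) k (Dual k W) := b.dualBasis
  obtain ⟨z, hz⟩ := Pool.Agent.Ord.exists_eigenvalues
    ((LinearMap.toMatrix b b TW).map (algebraMap k K))
  have hz' : TW.charpoly.map (algebraMap k K) = ∏ i, (X - C (z i)) := by
    rw [← hz, Matrix.charpoly_map, LinearMap.charpoly_toMatrix]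
  have hSc := charpoly_inv bd TW.dualMap S lam hlam (by
    ext f x
    change S f (TW x) = lam * f x
    rw [hS]
    congr 2
    exact e.symm_apply_apply x) z (by rw [charpoly_dualMap, hz'])
  refine ⟨z, ?_, ?_⟩
  · rw [charpoly_eq_mul T W hW', Polynomial.map_mul]
    exact mul_dvd_mul (dvd_of_eq hz'.symm) (by rw [← hSc]; exact Polynomial.map_dvd _ hdvd)
  · have h1 := Pool.Agent.Ord.det_aeval hz X
    rw [aeval_X] at h1
    have h2 : ∏ i, z i = ∏ i, eval (z i) X := by simp
    rw [h2, ← h1, ← RingHom.mapMatrix_apply, ← RingHom.map_det, LinearMap.det_toMatrix]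

end iso

end Pool.Agent.H43GS
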