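import Mathlib
import Pool.Agent.Lib.H43.GS.Isotropic

/-!
# Transfer of isotropic relations: field embeddings, powers
-/

namespace Pool.Agent.H43GS

open Polynomial Module

theorem RelN.map {K L : Type*} [Field K] [Field L] (f : K →+* L) {r N : ℕ} {R : Multiset K}
    {lam : K} (h : RelN r N R lam) : RelN r N (R.map f) (f lam) := by
  obtain ⟨S, hS, hle, hprod⟩ := h
  refine ⟨S.map f, by rw [Multiset.card_map, hS], ?_, ?_⟩
  · have h1 : S.map f + (S.map f).map (fun z => f lam / z) =
        (S + S.map (fun z => lam / z)).map f := by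
      rw [Multiset.map_add, Multiset.map_map, Multiset.map_map]
      congr 1
      apply Multiset.map_congr rfl
      intro z _
      rw [Function.comp_apply, Function.comp_apply, map_div₀]
    rw [h1]
    exact Multiset.map_le_map hle
  · have h1 := congrArg f hprod
    rwa [map_pow, map_pow, map_multiset_prod] at h1

theorem RelN.of_map {K L : Type*} [Field K] [Field L] (f : K →+* L) {r N : ℕ} {R : Multiset K}
    {lam : K} (h : RelN r N (R.map f) (f lam)) : RelN r N R lam := by
  obtain ⟨S, hS, hle, hprod⟩ := h
  have h1 : ∀ z ∈ S, ∃ y, f y = z := by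
    intro z hz
    have h2 : z ∈ R.map f := Multiset.mem_of_le ((Multiset.le_add_right _ _).trans hle) hz
    obtain ⟨y, -, hy⟩ := Multiset.mem_map.1 h2
    exact ⟨y, hy⟩
  obtain ⟨S', rfl⟩ : ∃ S' : Multiset K, S = S'.map f := by
    have h3 : ∀ T : Multiset L, (∀ z ∈ T, ∃ y, f y = z) → ∃ T' : Multiset K, T = T'.map f := by
      intro T
      induction T using Multiset.induction_on with
      | empty => exact fun _ => ⟨0, rfl⟩
      | cons a T ih =>
        intro hT
        obtain ⟨y, hy⟩ := hT a (Multiset.mem_cons_self a T)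
        obtain ⟨T', hT'⟩ := ih (fun z hz => hT z (Multiset.mem_cons_of_mem hz))
        exact ⟨y ::ₘ T', by rw [Multiset.map_cons, hy, hT']⟩
    exact h3 S h1
  refine ⟨S', by rwa [Multiset.card_map] at hS, ?_, ?_⟩
  · rw [← Multiset.map_le_map_iff f.injective]
    rw [Multiset.map_add, Multiset.map_map]
    rw [Multiset.map_map] at hle
    have h4 : S'.map (f ∘ fun z => lam / z) = S'.map ((fun z => f lam / z) ∘ f) := by
      apply Multiset.map_congr rfl
      intro z _
      rw [Function.comp_apply, Function.comp_apply, map_div₀]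
    rw [h4]
    exact hle
  · apply f.injective
    rw [map_pow, map_pow, map_multiset_prod]
    exact hprod

theorem RelN.pow {K : Type*} [Field K] {r N : ℕ} {R : Multiset K}
    {lam : K} (h : RelN r N R lam) (m : ℕ) : RelN r N (R.map (fun z => z ^ m)) (lam ^ m) := by
  obtain ⟨S, hS, hle, hprod⟩ := h
  refine ⟨S.map (fun z => z ^ m), by rw [Multiset.card_map, hS], ?_, ?_⟩
  · have h1 : S.map (fun z => z ^ m) + (S.map (fun z => z ^ m)).map (fun z => lam ^ m / z) =
        (S + S.map (fun z => lam / z)).map (fun z => z ^ m) := by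
      rw [Multiset.map_add, Multiset.map_map, Multiset.map_map]
      congr 1
      apply Multiset.map_congr rfl
      intro z _
      rw [Function.comp_apply, Function.comp_apply, div_pow]
    rw [h1]
    exact Multiset.map_le_map hle
  · rw [Multiset.prod_map_pow, Multiset.map_id', ← pow_mul, mul_comm m, pow_mul, hprod, ← pow_mul,
      ← pow_mul, mul_comm m]

/-- The roots of a rational polynomial in two algebraically closed fields. -/
theorem aroots_rat {Ω K : Type*} [Field Ω] [CharZero Ω] [IsAlgClosed Ω] [Field K] [CharZero K]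
    (ι : Ω →+* K) (P : ℚ[X]) {k : Type*} [Field k] [CharZero k] [Algebra k K] :
    ((P.map (algebraMap ℚ k)).map (algebraMap k K)).roots =
      (P.map (algebraMap ℚ Ω)).roots.map ι := by
  have h1 : (P.map (algebraMap ℚ k)).map (algebraMap k K) = (P.map (algebraMap ℚ Ω)).map ι := by
    rw [Polynomial.map_map, Polynomial.map_map]
    congr 1
    exact RingHom.ext_rat _ _
  rw [h1, (IsAlgClosed.splits _).roots_map]

end Pool.Agent.H43GS
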