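import Mathlib
import Pool.Agent.Lib.H43.GS.Transfer

/-!
# The existence of isotropic relations is a closed condition
-/

namespace Pool.Agent.H43GS

open Polynomial Module Filter Topology

/-- Limits of points close to a finite set, along an ultrafilter. -/
theorem exists_tendsto_of_near {G L : Type*} [PseudoMetricSpace L] (u : Ultrafilter G)
    (s : Finset L) (f : G → L)
    (h : ∀ δ : ℝ, 0 < δ → ∀ᶠ g in (u : Filter G), ∃ b ∈ s, dist (f g) b < δ) :
    ∃ b ∈ s, Tendsto f u (𝓝 b) := by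
  by_contra hcon
  push Not at hcon
  have h1 : ∀ b ∈ s, ∃ δ : ℝ, 0 < δ ∧ ∀ᶠ g in (u : Filter G), δ ≤ dist (f g) b := by
    intro b hb
    have h2 := hcon b hb
    rw [Metric.tendsto_nhds] at h2
    push Not at h2
    obtain ⟨δ, hδ, h3⟩ := h2
    exact ⟨δ, hδ, h3⟩
  choose! δ hδ0 hδ using h1
  have hne : s.Nonempty := by
    obtain ⟨g, b, hb, -⟩ := (h 1 one_pos).exists
    exact ⟨b, hb⟩
  obtain ⟨b₀, hb₀, hmin⟩ := Finset.exists_min_image s δ hne
  have h5 : ∀ᶠ g in (u : Filter G), ∀ b ∈ s, δ b ≤ dist (f g) b := by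
    rw [Filter.eventually_all_finset]
    exact hδ
  obtain ⟨g, ⟨b, hb, hlt⟩, hg⟩ := ((h (δ b₀) (hδ0 b₀ hb₀)).and h5).exists
  have := hg b hb
  have := hmin b hb
  linarith

/-- **Limits of eigenvalues.** -/
theorem exists_root_limit {K L : Type*} [NormedField K] [NormedField L] [NormedAlgebra K L]
    [IsAlgClosed L] {G : Type*} (u : Ultrafilter G) (c : G → K[X]) (c₀ : K[X]) {n : ℕ}
    (hc : ∀ g, (c g).Monic) (hc₀ : c₀.Monic) (hn : ∀ g, (c g).natDegree = n)
    (hn₀ : c₀.natDegree = n)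
    (hlim : ∀ i, Tendsto (fun g => (c g).coeff i) u (𝓝 (c₀.coeff i)))
    (f : G → L) (hf : ∀ᶠ g in (u : Filter G), aeval (f g) (c g) = 0) :
    ∃ b, Tendsto f u (𝓝 b) := by
  classical
  suffices hsuff : ∀ δ : ℝ, 0 < δ → ∀ᶠ g in (u : Filter G), ∃ b ∈ (c₀.aroots L).toFinset,
      dist (f g) b < δ by
    obtain ⟨b, -, hb⟩ := exists_tendsto_of_near u (c₀.aroots L).toFinset f hsuff
    exact ⟨b, hb⟩
  intro δ hδ
  -- a bound for the roots of the limit
  obtain ⟨C, hC⟩ : ∃ C : ℝ, ∀ b ∈ c₀.aroots L, ‖b‖ ≤ C := by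
    obtain ⟨C, hC⟩ := ((c₀.aroots L).toFinset.image (fun b => ‖b‖)).bddAbove
    refine ⟨C, fun b hb => hC ?_⟩
    rw [Finset.mem_coe, Finset.mem_image]
    exact ⟨b, Multiset.mem_toFinset.2 hb, rfl⟩
  set C' : ℝ := 2 * |C| + 2 with hC'
  have hC'0 : 1 ≤ C' := by
    have := abs_nonneg C
    rw [hC']; linarith
  -- the radius
  set η : ℝ := min (1 / 2) (δ / C') with hη
  have hη0 : 0 < η := by
    rw [hη]
    positivity
  obtain ⟨ε, hε0, hε⟩ : ∃ ε : ℝ, 0 < ε ∧ ((n + 1) * ε) ^ ((n : ℝ)⁻¹) ≤ η := by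
    by_cases hn0 : n = 0
    · exact absurd hn0 (by
        intro h0
        subst h0
        obtain ⟨g, hg⟩ := hf.exists
        have h1 := (hc g).natDegree_eq_zero.1 (hn g)
        rw [h1, map_one] at hg
        exact one_ne_zero hg)
    · refine ⟨η ^ n / (n + 1), by positivity, ?_⟩
      have h1 : ((n : ℝ) + 1) * (η ^ n / (n + 1)) = η ^ n := by field_simp
      rw [h1, ← Real.rpow_natCast, ← Real.rpow_mul hη0.le, mul_inv_cancel₀ (by exact_mod_cast hn0),
        Real.rpow_one]
  have hnear : ∀ᶠ g in (u : Filter G), ∀ i, ‖c₀.coeff i - (c g).coeff i‖ < ε := by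
    have h1 : ∀ᶠ g in (u : Filter G), ∀ i ∈ Finset.range (n + 1),
        ‖c₀.coeff i - (c g).coeff i‖ < ε := by
      rw [Filter.eventually_all_finset]
      intro i _
      have h2 := Metric.tendsto_nhds.1 (hlim i) ε hε0
      filter_upwards [h2] with g hg
      rwa [dist_comm, dist_eq_norm] at hg
    filter_upwards [h1] with g hg
    intro i
    by_cases hi : i < n + 1
    · exact hg i (Finset.mem_range.2 hi)
    · rw [coeff_eq_zero_of_natDegree_lt (by omega), coeff_eq_zero_of_natDegree_lt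
        (by rw [hn g]; omega), sub_zero, norm_zero]
      exact hε0
  filter_upwards [hnear, hf] with g hg hfg
  obtain ⟨b, hb, hlt⟩ := exists_aroots_norm_sub_lt_of_norm_coeff_sub_lt hε0 hfg (hc g) hc₀
    (by rw [hn g, hn₀]) hg (IsAlgClosed.splits _)
  refine ⟨b, Multiset.mem_toFinset.2 hb, ?_⟩
  rw [hn g] at hlt
  have h1 : ‖f g - b‖ < η * max ‖f g‖ 1 := lt_of_lt_of_le hlt (by gcongr)
  have hb1 := hC b hb
  have hC1 := le_abs_self C
  have h2 : ‖f g‖ ≤ ‖f g - b‖ + ‖b‖ := by
    calc ‖f g‖ = ‖(f g - b) + b‖ := by rw [sub_add_cancel]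
      _ ≤ _ := norm_add_le _ _
  have h3 : η ≤ 1 / 2 := min_le_left _ _
  have h4 : max ‖f g‖ 1 ≤ C' := by
    rcases le_total ‖f g‖ 1 with h5 | h5
    · rw [max_eq_right h5]; exact hC'0
    · rw [max_eq_left h5] at h1 ⊢
      have h6 : η * ‖f g‖ ≤ 1 / 2 * ‖f g‖ := by gcongr
      rw [hC']
      linarith
  rw [dist_eq_norm]
  calc ‖f g - b‖ < η * max ‖f g‖ 1 := h1
    _ ≤ (δ / C') * C' := by
        gcongr
        exact min_le_right _ _
    _ = δ := by field_simp

/-- **Closedness.** -/
theorem relN_of_mem_closure {K L : Type*} [NormedField K] [NormedField L] [NormedAlgebra K L]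
    [IsAlgClosed L] {G : Type*} [TopologicalSpace G] (c : G → K[X]) (lam : G → K) {n : ℕ}
    (hc : ∀ g, (c g).Monic) (hn : ∀ g, (c g).natDegree = n)
    (hcc : ∀ i, Continuous fun g => (c g).coeff i) (hlam : ∀ g, lam g ≠ 0)
    (hlamc : Continuous lam) {r N : ℕ} (hN : 0 < N) {g₀ : G}
    (hg₀ : g₀ ∈ closure {g | RelN r N ((c g).map (algebraMap K L)).roots
      (algebraMap K L (lam g))}) :
    RelN r N ((c g₀).map (algebraMap K L)).roots (algebraMap K L (lam g₀)) := by
  classical
  obtain ⟨u, hu1, hu2⟩ := mem_closure_iff_ultrafilter.1 hg₀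
  set A := {g | RelN r N ((c g).map (algebraMap K L)).roots (algebraMap K L (lam g))} with hA
  have hlam' : ∀ g, algebraMap K L (lam g) ≠ 0 := fun g => by
    rw [Ne, map_eq_zero]; exact hlam g
  -- the list of roots
  have hex : ∀ g ∈ A, ∃ (z : Fin r → L) (y : Fin (n - 2 * r) → L),
      (c g).map (algebraMap K L) = ((∏ i, (X - C (z i))) *
        ∏ i, (X - C (algebraMap K L (lam g) / z i))) * ∏ j, (X - C (y j)) ∧
      (∏ i, z i) ^ (2 * N) = (algebraMap K L (lam g)) ^ (r * N) := by
    intro g hg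
    obtain ⟨z, ⟨Q, hQ⟩, hz⟩ := (relN_iff ((hc g).map _)).1 hg
    have hzm : ((∏ i, (X - C (z i))) * ∏ i, (X - C (algebraMap K L (lam g) / z i))).Monic :=
      (monic_prod_X_sub_C z Finset.univ).mul
        (monic_prod_X_sub_C (fun i => algebraMap K L (lam g) / z i) Finset.univ)
    have hQm : Q.Monic := hzm.of_mul_monic_left (hQ ▸ (hc g).map _)
    have hdeg : Multiset.card Q.roots = n - 2 * r := by
      rw [← (IsAlgClosed.splits Q).natDegree_eq_card_roots]
      have h1 := congrArg natDegree hQ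
      rw [natDegree_map, hn g, hzm.natDegree_mul hQm, (monic_prod_X_sub_C z Finset.univ).natDegree_mul
        (monic_prod_X_sub_C (fun i => algebraMap K L (lam g) / z i) Finset.univ),
        natDegree_finset_prod_X_sub_C_eq_card, natDegree_finset_prod_X_sub_C_eq_card, Finset.card_univ, Fintype.card_fin] at h1
      omega
    obtain ⟨y, hy⟩ := Pool.Agent.Ord.exists_fin_map _ hdeg
    refine ⟨z, y, ?_, hz⟩
    rw [hQ]
    congr 1
    have h1 := (IsAlgClosed.splits Q).eq_prod_roots
    rw [hQm.leadingCoeff, C_1, one_mul, hy, Multiset.map_map] at h1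
    exact h1
  choose! z y hzy hprod using hex
  have hcm : ∀ g ∈ A, ∀ x : L, aeval x (c g) = ((∏ i, (x - z g i)) *
      ∏ i, (x - algebraMap K L (lam g) / z g i)) * ∏ j, (x - y g j) := by
    intro g hg x
    rw [← eval_map_algebraMap, hzy g hg, eval_mul, eval_mul, eval_prod, eval_prod, eval_prod]
    simp only [eval_sub, eval_X, eval_C]
  have hlimc : ∀ i, Tendsto (fun g => (c g).coeff i) u (𝓝 ((c g₀).coeff i)) := fun i =>
    ((hcc i).tendsto g₀).mono_left hu2
  have hlimlam : Tendsto (fun g => algebraMap K L (lam g)) u (𝓝 (algebraMap K L (lam g₀))) :=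
    (((continuous_algebraMap K L).comp hlamc).tendsto g₀).mono_left hu2
  have hA' : ∀ᶠ g in (u : Filter G), g ∈ A := hu1
  have hroot := exists_root_limit (L := L) u c (c g₀) hc (hc g₀) hn (hn g₀) hlimc
  -- limits
  have hz : ∀ i, ∃ b, Tendsto (fun g => z g i) u (𝓝 b) := by
    intro i
    apply hroot
    filter_upwards [hA'] with g hg
    rw [hcm g hg, Finset.prod_eq_zero (Finset.mem_univ i) (sub_self _), zero_mul, zero_mul]
  have hz' : ∀ i, ∃ b, Tendsto (fun g => algebraMap K L (lam g) / z g i) u (𝓝 b) := by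
    intro i
    apply hroot
    filter_upwards [hA'] with g hg
    rw [hcm g hg, Finset.prod_eq_zero (i := i) (s := Finset.univ)
      (f := fun j => algebraMap K L (lam g) / z g i - algebraMap K L (lam g) / z g j)
      (Finset.mem_univ i) (sub_self _), mul_zero, zero_mul]
  have hy' : ∀ j, ∃ b, Tendsto (fun g => y g j) u (𝓝 b) := by
    intro j
    apply hroot
    filter_upwards [hA'] with g hg
    rw [hcm g hg, Finset.prod_eq_zero (i := j) (s := Finset.univ)
      (f := fun k => y g j - y g k) (Finset.mem_univ j) (sub_self _), mul_zero]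
  choose a ha using hz
  choose a' ha' using hz'
  choose b hb using hy'
  -- the relation passes to the limit
  have hrel : (∏ i, a i) ^ (2 * N) = (algebraMap K L (lam g₀)) ^ (r * N) := by
    have h1 : Tendsto (fun g => (∏ i, z g i) ^ (2 * N)) u (𝓝 ((∏ i, a i) ^ (2 * N))) :=
      (tendsto_finsetProd _ fun i _ => ha i).pow _
    have h2 : Tendsto (fun g => (algebraMap K L (lam g)) ^ (r * N)) u
        (𝓝 ((algebraMap K L (lam g₀)) ^ (r * N))) := hlimlam.pow _
    refine tendsto_nhds_unique (h1.congr' ?_) h2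
    filter_upwards [hA'] with g hg
    exact hprod g hg
  have haa' : ∀ i, a i * a' i = algebraMap K L (lam g₀) := by
    intro i
    refine tendsto_nhds_unique (((ha i).mul (ha' i)).congr' ?_) hlimlam
    filter_upwards [hA'] with g hg
    have hz0 : z g i ≠ 0 := by
      intro h0
      have h1 := hprod g hg
      rw [Finset.prod_eq_zero (Finset.mem_univ i) h0, zero_pow (by omega)] at h1
      exact pow_ne_zero _ (hlam' g) h1.symm
    rw [mul_div_cancel₀ _ hz0]
  have ha0 : ∀ i, a i ≠ 0 := by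
    intro i h0
    apply hlam' g₀
    rw [← haa' i, h0, zero_mul]
  have haq : ∀ i, a' i = algebraMap K L (lam g₀) / a i := by
    intro i
    rw [eq_div_iff (ha0 i), mul_comm, haa']
  have hfin : (c g₀).map (algebraMap K L) = ((∏ i, (X - C (a i))) *
        ∏ i, (X - C (algebraMap K L (lam g₀) / a i))) * ∏ j, (X - C (b j)) := by
    apply Polynomial.funext
    intro x
    rw [eval_map_algebraMap, eval_mul, eval_mul, eval_prod, eval_prod, eval_prod]
    simp only [eval_sub, eval_X, eval_C]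
    have h1 : Tendsto (fun g => aeval x (c g)) u (𝓝 (aeval x (c g₀))) := by
      have h2 : ∀ g, aeval x (c g) =
          ∑ i ∈ Finset.range (n + 1), algebraMap K L ((c g).coeff i) * x ^ i := by
        intro g
        rw [aeval_eq_sum_range, hn g]
        refine Finset.sum_congr rfl fun i _ => ?_
        rw [Algebra.smul_def]
      rw [h2]
      simp only [h2]
      refine tendsto_finsetSum _ fun i _ => Tendsto.mul_const _ ?_
      exact ((continuous_algebraMap K L).tendsto _).comp (hlimc i)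
    have h3 : Tendsto (fun g => ((∏ i, (x - z g i)) *
        ∏ i, (x - algebraMap K L (lam g) / z g i)) * ∏ j, (x - y g j)) u
        (𝓝 (((∏ i, (x - a i)) * ∏ i, (x - a' i)) * ∏ j, (x - b j))) :=
      ((tendsto_finsetProd _ fun i _ => (ha i).const_sub x).mul
        (tendsto_finsetProd _ fun i _ => (ha' i).const_sub x)).mul
        (tendsto_finsetProd _ fun j _ => (hb j).const_sub x)
    simp only [haq] at h3
    refine tendsto_nhds_unique (h1.congr' ?_) h3
    filter_upwards [hA'] with g hg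
    exact hcm g hg x
  exact (relN_iff ((hc g₀).map _)).2 ⟨a, ⟨_, hfin⟩, hrel⟩

end Pool.Agent.H43GS
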