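import Mathlib
import Pool.Agent.Lib.H43.GS.Closed
import Pool.Agent.Lib.Helper90.GSem.Weights2
import Pool.Agent.Lib.Helper95.Ord.Galois2

/-!
# Semisimplicity of polarised pure representations at all primes
-/

namespace Pool.Agent.H43GS

open Polynomial Module Filter Topology NumberField TensorProduct Pool.Agent.GSem Pool.Agent.Ord

section density

variable {Ω : Type*} [Field Ω] [CharZero Ω] [IsAlgClosure ℚ Ω]

/-- The powers of Frobenius elements at large primes are dense. -/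
theorem mem_closure_frob_powers (b : ℕ) (g : Gal(Ω/ℚ)) (A : Set Gal(Ω/ℚ))
    (hA : ∀ q : ℕ, b < q → q.Prime → ∀ φ : Gal(Ω/ℚ), IsFrobAt q φ → ∀ m : ℕ, φ ^ m ∈ A) :
    g ∈ closure A := by
  have hG : IsGalois ℚ Ω := isGaloisΩ
  rw [mem_closure_iff]
  intro U hU hgU
  have hU' : IsOpen ((fun x => g * x) ⁻¹' U) := hU.preimage (continuous_const_mul g)
  obtain ⟨N, hN⟩ := ProfiniteGrp.exist_openNormalSubgroup_sub_open_nhds_of_one hU'
    (by rw [Set.mem_preimage, mul_one]; exact hgU)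
  have hNo : IsOpen ((N.toSubgroup : Subgroup Gal(Ω/ℚ)) : Set Gal(Ω/ℚ)) := N.isOpen'
  have hfin := finite_quotient N.toSubgroup hNo
  obtain ⟨q, hbq, hq, φ, hφ, k, hk, hφk⟩ := exists_frob_gen N.toSubgroup hNo g b
  obtain ⟨m, hm⟩ := exists_pow_eq_self_of_coprime hk
  rw [← hφk, ← QuotientGroup.mk_pow] at hm
  have h1 : g⁻¹ * φ ^ m ∈ N.toSubgroup := QuotientGroup.eq.1 hm.symm
  refine ⟨φ ^ m, ?_, hA q hbq hq φ hφ m⟩
  have h2 := hN h1
  rw [Set.mem_preimage, mul_inv_cancel_left] at h2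
  exact h2

end density

section eigenvalues

/-- Eigenvalues of powers. -/
theorem roots_charpoly_pow {k V : Type*} [Field k] [AddCommGroup V] [Module k V]
    [FiniteDimensional k V] {K : Type*} [Field K] [IsAlgClosed K] [Algebra k K]
    (T : V →ₗ[k] V) (m : ℕ) :
    ((T ^ m).charpoly.map (algebraMap k K)).roots =
      (T.charpoly.map (algebraMap k K)).roots.map (fun z => z ^ m) := by
  classical
  let b := Module.finBasis k V
  obtain ⟨z, hz⟩ := Pool.Agent.Ord.exists_eigenvalues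
    ((LinearMap.toMatrix b b T).map (algebraMap k K))
  have h1 : T.charpoly.map (algebraMap k K) = ∏ i, (X - C (z i)) := by
    rw [← hz, Matrix.charpoly_map, LinearMap.charpoly_toMatrix]
  have h2 : (T ^ m).charpoly.map (algebraMap k K) = ∏ i, (X - C (z i ^ m)) := by
    rw [← charpoly_pow_eq hz m, ← LinearMap.charpoly_toMatrix (T ^ m) b, ← Matrix.charpoly_map,
      ← LinearMap.toMatrix_pow]
    congr 1
    exact map_pow (algebraMap k K).mapMatrix _ m
  rw [h1, h2]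
  have h3 := roots_multiset_prod_X_sub_C (Multiset.map z Finset.univ.val)
  have h4 := roots_multiset_prod_X_sub_C (Multiset.map (fun i => z i ^ m) Finset.univ.val)
  rw [Multiset.map_map] at h3 h4
  have h5 : (∏ i, (X - C (z i))).roots = Multiset.map z Finset.univ.val := h3
  have h6 : (∏ i, (X - C (z i ^ m))).roots = Multiset.map (fun i => z i ^ m) Finset.univ.val := h4
  rw [h5, h6, Multiset.map_map]
  rfl

end eigenvalues

section relation

variable {p : ℕ} [hp : Fact p.Prime] {Ω : Type*} [Field Ω] [CharZero Ω] [IsAlgClosed Ω]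
  [IsGalois ℚ Ω]
variable {V : Type*} [AddCommGroup V] [Module ℚ_[p] V] [FiniteDimensional ℚ_[p] V]

/-- **Isotropic relations.** On a polarised pure Hodge–Tate representation with a nonzero stable
isotropic subspace, the eigenvalues of all elements satisfy an isotropic relation. -/
theorem isotropic_relation (ι : Ω →+* PadicAlgCl p) (ρ : Representation ℚ_[p] Gal(Ω/ℚ) V)
    (hρ : IsContinuousRep ρ) {n : ℕ} (h : Fin n → ℤ)
    (e : Basis (Fin n) ℂ_[p] (ℂ_[p] ⊗[ℚ_[p]] V)) (he : IsHTBasis ι ρ h e)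
    (w : ℤ) (B : V →ₗ[ℚ_[p]] V →ₗ[ℚ_[p]] ℚ_[p]) (hB : IsPolarization ρ w B)
    {q : ℕ} (hq : q.Prime) (hqp : q ≠ p) {φ : Gal(Ω/ℚ)} (hφ : IsFrobAt q φ)
    (hpure : IsPureOp q w (ρ φ)) (U : Submodule ℚ_[p] V) (hU : ∀ g, ∀ u ∈ U, ρ g u ∈ U)
    (hiso : ∀ x ∈ U, ∀ y ∈ U, B x y = 0) (hU0 : U ≠ ⊥) :
    ∃ r N : ℕ, 0 < r ∧ 0 < N ∧ Even (w * r) ∧ ∀ g, RelN r N
      ((ρ g).charpoly.map (algebraMap ℚ_[p] (AlgebraicClosure ℚ_[p]))).roots
      (algebraMap ℚ_[p] (AlgebraicClosure ℚ_[p]) (toQ (cyc p Ω g) ^ (-w))) := by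
  obtain ⟨H, N, hN, hH, hdet⟩ := exists_det_weight ι ρ hρ h e he w hq hqp hφ hpure U hU
  refine ⟨finrank ℚ_[p] U, N, ?_, hN, ⟨H, by omega⟩, fun g => ?_⟩
  · rw [Nat.pos_iff_ne_zero]
    intro h0
    exact hU0 (Submodule.finrank_eq_zero.1 h0)
  have hχ : toQ (cyc p Ω g) ≠ 0 := toQ_ne_zero _
  obtain ⟨z, hz, hzd⟩ := isotropic_charpoly (K := AlgebraicClosure ℚ_[p]) (ρ g) B
    (toQ (cyc p Ω g) ^ (-w)) (zpow_ne_zero _ hχ) hB.1 (hB.2 g) U (hU g) hiso
  refine (relN_iff ((LinearMap.charpoly_monic _).map _)).2 ⟨z, hz, ?_⟩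
  have h1 : LinearMap.det ((ρ g).restrict (hU g)) ^ N = toQ (cyc p Ω g) ^ (-(H * N)) := hdet g
  have h2 : LinearMap.det ((ρ g).restrict (hU g)) ^ (2 * N) =
      (toQ (cyc p Ω g) ^ (-w)) ^ (finrank ℚ_[p] U * N) := by
    rw [mul_comm 2 N, pow_mul, h1, ← zpow_natCast, ← zpow_mul, ← zpow_natCast, ← zpow_mul]
    congr 1
    push_cast
    linear_combination (-(N : ℤ)) * hH
  have h3 := congrArg (algebraMap ℚ_[p] (AlgebraicClosure ℚ_[p])) h2
  rw [map_pow, map_pow] at h3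
  rw [hzd]
  exact h3

end relation

/-- `R` contains (with multiplicities) a nonempty multiset `S` together with the multiset of all
`lam / z`, `z ∈ S`, such that the product over `S` of `z ^ 2 / lam` is a root of unity; moreover `w`
times the cardinality of `S` is even. -/
def HasIsotropicRelation {K : Type*} [Field K] (w : ℤ) (R : Multiset K) (lam : K) : Prop :=
  ∃ S : Multiset K, S ≠ 0 ∧ Even (w * Multiset.card S) ∧ S + S.map (fun z => lam / z) ≤ R ∧
    ∃ N : ℕ, 0 < N ∧ S.prod ^ (2 * N) = lam ^ (Multiset.card S * N)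

theorem semisimple_everywhere {l p : ℕ} [Fact l.Prime] [Fact p.Prime] {Ω : Type*} [Field Ω]
    [CharZero Ω] [IsAlgClosure ℚ Ω]
    {U : Type*} [AddCommGroup U] [Module ℚ_[l] U] [FiniteDimensional ℚ_[l] U]
    {V : Type*} [AddCommGroup V] [Module ℚ_[p] V] [FiniteDimensional ℚ_[p] V]
    (θ : Representation ℚ_[l] Gal(Ω/ℚ) U) (hθ : IsContinuousRep θ)
    (ρ : Representation ℚ_[p] Gal(Ω/ℚ) V) (hρ : IsContinuousRep ρ)
    (w : ℤ) (B : V →ₗ[ℚ_[p]] V →ₗ[ℚ_[p]] ℚ_[p]) (hB : IsPolarization ρ w B)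
    {n : ℕ} (h : Fin n → ℤ) (hHT : IsHodgeTate ρ h) (hpure : IsPureSomewhere ρ w)
    (b : ℕ) (hcompat : ∀ q : ℕ, b < q → q.Prime → ∀ φ : Gal(Ω/ℚ), IsFrobAt q φ → ∃ P : ℚ[X],
      (θ φ).charpoly = P.map (algebraMap ℚ ℚ_[l]) ∧ (ρ φ).charpoly = P.map (algebraMap ℚ ℚ_[p]))
    (g : Gal(Ω/ℚ)) (hg : ¬ HasIsotropicRelation w
      ((θ g).charpoly.map (algebraMap ℚ_[l] (AlgebraicClosure ℚ_[l]))).roots
      (algebraMap ℚ_[l] (AlgebraicClosure ℚ_[l]) (toQ (cyc l Ω g) ^ (-w)))) :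
    HasStableComplements ρ := by
  classical
  have _ : IsAlgClosed Ω := IsAlgClosure.isAlgClosed ℚ
  have _ : Algebra.IsAlgebraic ℚ Ω := IsAlgClosure.isAlgebraic
  have _ : IsGalois ℚ Ω := IsAlgClosure.isGalois ℚ Ω
  obtain ⟨ι, e, he⟩ := hHT
  obtain ⟨q, φ, hq, hqp, hφ, hpq⟩ := hpure
  apply semisimple_of_isotropic ρ w B hB.2
  intro W hW hiso
  by_contra hW0
  obtain ⟨r, N, hr, hN, heven, hrel⟩ := isotropic_relation ι ρ hρ h e he w B hB hq hqp hφ hpq W hW hiso hW0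
  apply hg
  set Kl := AlgebraicClosure ℚ_[l] with hKl
  set Kp := AlgebraicClosure ℚ_[p] with hKp
  let ιl : Ω →+* Kl := (IsAlgClosed.lift : Ω →ₐ[ℚ] Kl).toRingHom
  let ιp : Ω →+* Kp := (IsAlgClosed.lift : Ω →ₐ[ℚ] Kp).toRingHom
  -- the relation holds for the powers of Frobenius elements
  have hfrob : ∀ q : ℕ, max b (max l p) < q → q.Prime → ∀ φ : Gal(Ω/ℚ), IsFrobAt q φ → ∀ m : ℕ,
      φ ^ m ∈ {g | RelN r N ((θ g).charpoly.map (algebraMap ℚ_[l] Kl)).roots
      (algebraMap ℚ_[l] Kl (toQ (cyc l Ω g) ^ (-w)))} := by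
    intro q hq1 hq φ hφ m
    rw [Set.mem_ofPred_eq]
    have hbq : b < q := lt_of_le_of_lt (le_max_left _ _) hq1
    have hlq : l < q := lt_of_le_of_lt ((le_max_left _ _).trans (le_max_right _ _)) hq1
    have hpq : p < q := lt_of_le_of_lt ((le_max_right _ _).trans (le_max_right _ _)) hq1
    obtain ⟨P, hPl, hPp⟩ := hcompat q hbq hq φ hφ
    have h1 := hrel φ
    have hcp : toQ (cyc p Ω φ) = (q : ℚ_[p]) := by
      rw [toQ_apply, cyc_frob hq hpq.ne' hφ, PadicInt.coe_natCast]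
    have hcl : toQ (cyc l Ω φ) = (q : ℚ_[l]) := by
      rw [toQ_apply, cyc_frob hq hlq.ne' hφ, PadicInt.coe_natCast]
    rw [hPp, aroots_rat ιp P, hcp] at h1
    have h2 : algebraMap ℚ_[p] Kp ((q : ℚ_[p]) ^ (-w)) = ιp ((q : Ω) ^ (-w)) := by
      rw [map_zpow₀, map_zpow₀, map_natCast, map_natCast]
    rw [h2] at h1
    have h3 := (h1.of_map).map ιl
    have h4 : algebraMap ℚ_[l] Kl ((q : ℚ_[l]) ^ (-w)) = ιl ((q : Ω) ^ (-w)) := by
      rw [map_zpow₀, map_zpow₀, map_natCast, map_natCast]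
    rw [← h4, ← hcl, ← aroots_rat ιl P (k := ℚ_[l]), ← hPl] at h3
    have h5 := h3.pow m
    rw [← roots_charpoly_pow, ← map_pow (θ) φ m] at h5
    have h6 : (algebraMap ℚ_[l] Kl (toQ (cyc l Ω φ) ^ (-w))) ^ m =
        algebraMap ℚ_[l] Kl (toQ (cyc l Ω (φ ^ m)) ^ (-w)) := by
      rw [← map_pow, map_pow (cyc l Ω), map_pow toQ, ← zpow_natCast, ← zpow_natCast,
        ← zpow_mul, ← zpow_mul, mul_comm]
    rw [h6] at h5
    exact h5
  have hcl := mem_closure_frob_powers (max b (max l p)) g _ hfrob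
  -- continuity
  let bU := Module.finBasis ℚ_[l] U
  have hcont : ∀ i, Continuous fun g => (θ g).charpoly.coeff i := by
    intro i
    have h1 : (fun g => (θ g).charpoly.coeff i) =
        (fun M : Matrix (Fin (finrank ℚ_[l] U)) (Fin (finrank ℚ_[l] U)) ℚ_[l] =>
          M.charpoly.coeff i) ∘ fun g => LinearMap.toMatrix bU bU (θ g) := by
      funext g
      rw [Function.comp_apply, LinearMap.charpoly_toMatrix]
    rw [h1]
    refine (continuous_charpoly_coeff i).comp (continuous_matrix fun a c => ?_)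
    have h2 : (fun g => LinearMap.toMatrix bU bU (θ g) a c) =
        fun g => (bU.coord a) (θ g (bU c)) := by
      funext g
      rw [LinearMap.toMatrix_apply]
      rfl
    rw [h2]
    exact hθ _ _
  have htoQ : Continuous fun u : ℤ_[l]ˣ => (toQ u : ℚ_[l]) := by
    have h0 : Continuous (fun x : ℤ_[l] => (x : ℚ_[l])) := continuous_subtype_val
    exact h0.comp Units.continuous_val
  have hlamc : Continuous fun g : Gal(Ω/ℚ) => (toQ (cyc l Ω g) ^ (-w) : ℚ_[l]) := by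
    have h1 : (fun g : Gal(Ω/ℚ) => (toQ (cyc l Ω g) ^ (-w) : ℚ_[l])) =
        fun g => toQ ((cyc l Ω g) ^ (-w)) := by
      funext g
      rw [map_zpow]
    rw [h1]
    exact htoQ.comp ((continuous_cyc l Ω).zpow _)
  have hfinal := relN_of_mem_closure (K := ℚ_[l]) (L := PadicAlgCl l) (fun g => (θ g).charpoly)
    (fun g => toQ (cyc l Ω g) ^ (-w)) (n := finrank ℚ_[l] U) (fun g => LinearMap.charpoly_monic _)
    (fun g => LinearMap.charpoly_natDegree _) hcont
    (fun g => zpow_ne_zero _ (toQ_ne_zero _)) hlamc hN hcl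
  obtain ⟨S, hS, hle, hprod⟩ := hfinal
  refine ⟨S, ?_, by rw [hS]; exact heven, hle, N, hN, ?_⟩
  · rintro rfl
    rw [Multiset.card_zero] at hS
    omega
  · rw [hS]
    exact hprod

end Pool.Agent.H43GS
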