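import Mathlib
import Pool.Agent.Lib.H43.GS.Main

/-!
# Joint isotropic relations of families
-/

namespace Pool.Agent.H43GS

open Polynomial Module Filter Topology

/-- The multisets `R x` contain, with multiplicities, multisets `S x` of cardinality `r` together
with the multisets of all `lam / z`, `z ∈ S x`, and the product over all `S x` of `z ^ 2 / lam` is a
root of unity of order dividing `N`. -/
def RelFam {κ K : Type*} [Fintype κ] [Field K] (r N : ℕ) (R : κ → Multiset K) (lam : K) : Prop :=
  ∃ S : κ → Multiset K, (∀ x, Multiset.card (S x) = r) ∧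
    (∀ x, S x + (S x).map (fun z => lam / z) ≤ R x) ∧
    (∏ x, (S x).prod) ^ (2 * N) = lam ^ (Fintype.card κ * r * N)

theorem roots_iso {K : Type*} [Field K] {r : ℕ} (z : Fin r → K) (lam : K) :
    ((∏ i, (X - C (z i))) * ∏ i, (X - C (lam / z i))).roots =
      Multiset.map z Finset.univ.val + Multiset.map (fun i => lam / z i) Finset.univ.val := by
  have h1 : (∏ i, (X - C (z i))) ≠ 0 := (monic_prod_X_sub_C z Finset.univ).ne_zero
  have h2 : (∏ i, (X - C (lam / z i))) ≠ 0 :=
    (monic_prod_X_sub_C (fun i => lam / z i) Finset.univ).ne_zero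
  rw [roots_mul (mul_ne_zero h1 h2)]
  congr 1
  · have := roots_multiset_prod_X_sub_C (Multiset.map z Finset.univ.val)
    rw [Multiset.map_map] at this
    exact this
  · have := roots_multiset_prod_X_sub_C (Multiset.map (fun i => lam / z i) Finset.univ.val)
    rw [Multiset.map_map] at this
    exact this

theorem relFam_iff {κ K : Type*} [Fintype κ] [Field K] [IsAlgClosed K] {r N : ℕ} {P : κ → K[X]}
    (hP : ∀ x, (P x).Monic) {lam : K} :
    RelFam r N (fun x => (P x).roots) lam ↔ ∃ z : κ → Fin r → K,
      (∀ x, ((∏ i, (X - C (z x i))) * ∏ i, (X - C (lam / z x i))) ∣ P x) ∧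
      (∏ x, ∏ i, z x i) ^ (2 * N) = lam ^ (Fintype.card κ * r * N) := by
  constructor
  · rintro ⟨S, hS, hle, hprod⟩
    choose z hz using fun x => Pool.Agent.Ord.exists_fin_map (S x) (hS x)
    refine ⟨z, fun x => ?_, ?_⟩
    · apply (Splits.dvd_iff_roots_le_roots (IsAlgClosed.splits _) ?_ (hP x).ne_zero).2
      · rw [roots_iso]
        have h1 := hle x
        rwa [hz x, Multiset.map_map] at h1
      · exact mul_ne_zero (monic_prod_X_sub_C (z x) Finset.univ).ne_zero
          (monic_prod_X_sub_C (fun i => lam / z x i) Finset.univ).ne_zero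
    · rw [← hprod]
      congr 1
      refine Finset.prod_congr rfl fun x _ => ?_
      rw [hz x]
      rfl
  · rintro ⟨z, hdvd, hprod⟩
    refine ⟨fun x => Multiset.map (z x) Finset.univ.val, fun x => by simp, fun x => ?_, hprod⟩
    have h1 := roots.le_of_dvd (hP x).ne_zero (hdvd x)
    rw [roots_iso] at h1
    rwa [Multiset.map_map]

theorem RelFam.map {κ K L : Type*} [Fintype κ] [Field K] [Field L] (f : K →+* L) {r N : ℕ}
    {R : κ → Multiset K} {lam : K} (h : RelFam r N R lam) :
    RelFam r N (fun x => (R x).map f) (f lam) := by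
  obtain ⟨S, hS, hle, hprod⟩ := h
  refine ⟨fun x => (S x).map f, fun x => by rw [Multiset.card_map, hS], fun x => ?_, ?_⟩
  · have h1 : (S x).map f + ((S x).map f).map (fun z => f lam / z) =
        (S x + (S x).map (fun z => lam / z)).map f := by
      rw [Multiset.map_add, Multiset.map_map, Multiset.map_map]
      congr 1
      apply Multiset.map_congr rfl
      intro z _
      rw [Function.comp_apply, Function.comp_apply, map_div₀]
    rw [h1]
    exact Multiset.map_le_map (hle x)
  · have h1 := congrArg f hprod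
    rw [map_pow, map_pow, map_prod] at h1
    rw [← h1]
    congr 1
    exact Finset.prod_congr rfl fun x _ => (map_multiset_prod f (S x)).symm

theorem exists_map_of_le {K L : Type*} (f : K → L) {R : Multiset K} :
    ∀ S : Multiset L, S ≤ R.map f → ∃ S' : Multiset K, S = S'.map f := by
  intro S hS
  have h1 : ∀ z ∈ S, ∃ y, f y = z := by
    intro z hz
    obtain ⟨y, -, hy⟩ := Multiset.mem_map.1 (Multiset.mem_of_le hS hz)
    exact ⟨y, hy⟩
  have h3 : ∀ T : Multiset L, (∀ z ∈ T, ∃ y, f y = z) → ∃ T' : Multiset K, T = T'.map f := by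
    intro T
    induction T using Multiset.induction_on with
    | empty => exact fun _ => ⟨0, rfl⟩
    | cons a T ih =>
      intro hT
      obtain ⟨y, hy⟩ := hT a (Multiset.mem_cons_self a T)
      obtain ⟨T', hT'⟩ := ih (fun z hz => hT z (Multiset.mem_cons_of_mem hz))
      exact ⟨y ::ₘ T', by rw [Multiset.map_cons, hy, hT']⟩
  exact h3 S h1

theorem RelFam.of_map {κ K L : Type*} [Fintype κ] [Field K] [Field L] (f : K →+* L) {r N : ℕ}
    {R : κ → Multiset K} {lam : K} (h : RelFam r N (fun x => (R x).map f) (f lam)) :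
    RelFam r N R lam := by
  obtain ⟨S, hS, hle, hprod⟩ := h
  choose S' hS' using fun x => exists_map_of_le f (S x)
    ((Multiset.le_add_right _ _).trans (hle x))
  refine ⟨S', fun x => ?_, fun x => ?_, ?_⟩
  · have h1 := hS x
    rwa [hS' x, Multiset.card_map] at h1
  · rw [← Multiset.map_le_map_iff f.injective]
    have h1 := hle x
    rw [hS' x, Multiset.map_map] at h1
    rw [Multiset.map_add, Multiset.map_map]
    have h4 : (S' x).map (f ∘ fun z => lam / z) = (S' x).map ((fun z => f lam / z) ∘ f) := by
      apply Multiset.map_congr rfl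
      intro z _
      rw [Function.comp_apply, Function.comp_apply, map_div₀]
    rw [h4]
    exact h1
  · apply f.injective
    rw [map_pow, map_pow, map_prod, ← hprod]
    congr 1
    refine Finset.prod_congr rfl fun x _ => ?_
    rw [map_multiset_prod, hS' x]

theorem RelFam.pow {κ K : Type*} [Fintype κ] [Field K] {r N : ℕ} {R : κ → Multiset K}
    {lam : K} (h : RelFam r N R lam) (m : ℕ) :
    RelFam r N (fun x => (R x).map (fun z => z ^ m)) (lam ^ m) := by
  obtain ⟨S, hS, hle, hprod⟩ := h
  refine ⟨fun x => (S x).map (fun z => z ^ m), fun x => by rw [Multiset.card_map, hS],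
    fun x => ?_, ?_⟩
  · have h1 : (S x).map (fun z => z ^ m) + ((S x).map (fun z => z ^ m)).map
        (fun z => lam ^ m / z) = (S x + (S x).map (fun z => lam / z)).map (fun z => z ^ m) := by
      rw [Multiset.map_add, Multiset.map_map, Multiset.map_map]
      congr 1
      apply Multiset.map_congr rfl
      intro z _
      rw [Function.comp_apply, Function.comp_apply, div_pow]
    rw [h1]
    exact Multiset.map_le_map (hle x)
  · have h1 : ∏ x, ((S x).map (fun z => z ^ m)).prod = (∏ x, (S x).prod) ^ m := by
      rw [← Finset.prod_pow]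
      refine Finset.prod_congr rfl fun x _ => ?_
      rw [Multiset.prod_map_pow, Multiset.map_id']
    rw [h1, ← pow_mul, mul_comm m, pow_mul, hprod, ← pow_mul, ← pow_mul, mul_comm m]

/-- **Closedness.** -/
theorem relFam_of_mem_closure {κ K L : Type*} [Fintype κ] [NormedField K] [NormedField L]
    [NormedAlgebra K L] [IsAlgClosed L] {G : Type*} [TopologicalSpace G] (c : κ → G → K[X])
    (lam : G → K) {n : ℕ} (hc : ∀ x g, (c x g).Monic) (hn : ∀ x g, (c x g).natDegree = n)
    (hcc : ∀ x i, Continuous fun g => (c x g).coeff i) (hlam : ∀ g, lam g ≠ 0)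
    (hlamc : Continuous lam) {r N : ℕ} (hN : 0 < N) {g₀ : G}
    (hg₀ : g₀ ∈ closure {g | RelFam r N (fun x => ((c x g).map (algebraMap K L)).roots)
      (algebraMap K L (lam g))}) :
    RelFam r N (fun x => ((c x g₀).map (algebraMap K L)).roots) (algebraMap K L (lam g₀)) := by
  classical
  obtain ⟨u, hu1, hu2⟩ := mem_closure_iff_ultrafilter.1 hg₀
  set A := {g | RelFam r N (fun x => ((c x g).map (algebraMap K L)).roots)
    (algebraMap K L (lam g))} with hA
  have hlam' : ∀ g, algebraMap K L (lam g) ≠ 0 := fun g => by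
    rw [Ne, map_eq_zero]; exact hlam g
  -- the list of roots
  have hex : ∀ g ∈ A, ∃ (z : κ → Fin r → L) (y : κ → Fin (n - 2 * r) → L),
      (∀ x, (c x g).map (algebraMap K L) = ((∏ i, (X - C (z x i))) *
        ∏ i, (X - C (algebraMap K L (lam g) / z x i))) * ∏ j, (X - C (y x j))) ∧
      (∏ x, ∏ i, z x i) ^ (2 * N) = (algebraMap K L (lam g)) ^ (Fintype.card κ * r * N) := by
    intro g hg
    obtain ⟨z, hdvd, hz⟩ := (relFam_iff (fun x => (hc x g).map _)).1 hg
    have hy : ∀ x, ∃ y : Fin (n - 2 * r) → L,
        (c x g).map (algebraMap K L) = ((∏ i, (X - C (z x i))) *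
        ∏ i, (X - C (algebraMap K L (lam g) / z x i))) * ∏ j, (X - C (y j)) := by
      intro x
      obtain ⟨Q, hQ⟩ := hdvd x
      have hzm : ((∏ i, (X - C (z x i))) *
          ∏ i, (X - C (algebraMap K L (lam g) / z x i))).Monic :=
        (monic_prod_X_sub_C (z x) Finset.univ).mul
          (monic_prod_X_sub_C (fun i => algebraMap K L (lam g) / z x i) Finset.univ)
      have hQm : Q.Monic := hzm.of_mul_monic_left (hQ ▸ (hc x g).map _)
      have hdeg : Multiset.card Q.roots = n - 2 * r := by
        rw [← (IsAlgClosed.splits Q).natDegree_eq_card_roots]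
        have h1 := congrArg natDegree hQ
        rw [natDegree_map, hn x g, hzm.natDegree_mul hQm,
          (monic_prod_X_sub_C (z x) Finset.univ).natDegree_mul
          (monic_prod_X_sub_C (fun i => algebraMap K L (lam g) / z x i) Finset.univ),
          natDegree_finsetProd_X_sub_C_eq_card, natDegree_finsetProd_X_sub_C_eq_card,
          Finset.card_univ, Fintype.card_fin] at h1
        omega
      obtain ⟨y, hy⟩ := Pool.Agent.Ord.exists_fin_map _ hdeg
      refine ⟨y, ?_⟩
      rw [hQ]
      congr 1
      have h1 := (IsAlgClosed.splits Q).eq_prod_roots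
      rw [hQm.leadingCoeff, C_1, one_mul, hy, Multiset.map_map] at h1
      exact h1
    choose y hy using hy
    exact ⟨z, y, hy, hz⟩
  choose! z y hzy hprod using hex
  have hcm : ∀ g ∈ A, ∀ x, ∀ t : L, aeval t (c x g) = ((∏ i, (t - z g x i)) *
      ∏ i, (t - algebraMap K L (lam g) / z g x i)) * ∏ j, (t - y g x j) := by
    intro g hg x t
    rw [← eval_map_algebraMap, hzy g hg x, eval_mul, eval_mul, eval_prod, eval_prod, eval_prod]
    simp only [eval_sub, eval_X, eval_C]
  have hlimc : ∀ x i, Tendsto (fun g => (c x g).coeff i) u (𝓝 ((c x g₀).coeff i)) := fun x i =>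
    ((hcc x i).tendsto g₀).mono_left hu2
  have hlimlam : Tendsto (fun g => algebraMap K L (lam g)) u (𝓝 (algebraMap K L (lam g₀))) :=
    (((continuous_algebraMap K L).comp hlamc).tendsto g₀).mono_left hu2
  have hA' : ∀ᶠ g in (u : Filter G), g ∈ A := hu1
  have hroot := fun x => exists_root_limit (L := L) u (c x) (c x g₀) (hc x) (hc x g₀) (hn x)
    (hn x g₀) (hlimc x)
  -- limits
  have hz : ∀ x i, ∃ b, Tendsto (fun g => z g x i) u (𝓝 b) := by
    intro x i
    apply hroot x
    filter_upwards [hA'] with g hg
    rw [hcm g hg, Finset.prod_eq_zero (Finset.mem_univ i) (sub_self _), zero_mul, zero_mul]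
  have hz' : ∀ x i, ∃ b, Tendsto (fun g => algebraMap K L (lam g) / z g x i) u (𝓝 b) := by
    intro x i
    apply hroot x
    filter_upwards [hA'] with g hg
    rw [hcm g hg, Finset.prod_eq_zero (i := i) (s := Finset.univ)
      (f := fun j => algebraMap K L (lam g) / z g x i - algebraMap K L (lam g) / z g x j)
      (Finset.mem_univ i) (sub_self _), mul_zero, zero_mul]
  have hy' : ∀ x j, ∃ b, Tendsto (fun g => y g x j) u (𝓝 b) := by
    intro x j
    apply hroot x
    filter_upwards [hA'] with g hg
    rw [hcm g hg, Finset.prod_eq_zero (i := j) (s := Finset.univ)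
      (f := fun k => y g x j - y g x k) (Finset.mem_univ j) (sub_self _), mul_zero]
  choose a ha using hz
  choose a' ha' using hz'
  choose b hb using hy'
  -- the relation passes to the limit
  have hrel : (∏ x, ∏ i, a x i) ^ (2 * N) =
      (algebraMap K L (lam g₀)) ^ (Fintype.card κ * r * N) := by
    have h1 : Tendsto (fun g => (∏ x, ∏ i, z g x i) ^ (2 * N)) u
        (𝓝 ((∏ x, ∏ i, a x i) ^ (2 * N))) :=
      (tendsto_finsetProd _ fun x _ => tendsto_finsetProd _ fun i _ => ha x i).pow _
    have h2 : Tendsto (fun g => (algebraMap K L (lam g)) ^ (Fintype.card κ * r * N)) u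
        (𝓝 ((algebraMap K L (lam g₀)) ^ (Fintype.card κ * r * N))) := hlimlam.pow _
    refine tendsto_nhds_unique (h1.congr' ?_) h2
    filter_upwards [hA'] with g hg
    exact hprod g hg
  have haa' : ∀ x i, a x i * a' x i = algebraMap K L (lam g₀) := by
    intro x i
    refine tendsto_nhds_unique (((ha x i).mul (ha' x i)).congr' ?_) hlimlam
    filter_upwards [hA'] with g hg
    have hz0 : z g x i ≠ 0 := by
      intro h0
      have h1 := hprod g hg
      rw [Finset.prod_eq_zero (Finset.mem_univ x) (Finset.prod_eq_zero (Finset.mem_univ i) h0),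
        zero_pow (by omega)] at h1
      exact pow_ne_zero _ (hlam' g) h1.symm
    rw [mul_div_cancel₀ _ hz0]
  have ha0 : ∀ x i, a x i ≠ 0 := by
    intro x i h0
    apply hlam' g₀
    rw [← haa' x i, h0, zero_mul]
  have haq : ∀ x i, a' x i = algebraMap K L (lam g₀) / a x i := by
    intro x i
    rw [eq_div_iff (ha0 x i), mul_comm, haa']
  refine (relFam_iff (fun x => (hc x g₀).map _)).2 ⟨a, fun x => ⟨∏ j, (X - C (b x j)), ?_⟩, hrel⟩
  apply Polynomial.funext
  intro t
  rw [eval_map_algebraMap, eval_mul, eval_mul, eval_prod, eval_prod, eval_prod]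
  simp only [eval_sub, eval_X, eval_C]
  have h1 : Tendsto (fun g => aeval t (c x g)) u (𝓝 (aeval t (c x g₀))) := by
    have h2 : ∀ g, aeval t (c x g) =
        ∑ i ∈ Finset.range (n + 1), algebraMap K L ((c x g).coeff i) * t ^ i := by
      intro g
      rw [aeval_eq_sum_range, hn x g]
      refine Finset.sum_congr rfl fun i _ => ?_
      rw [Algebra.smul_def]
    rw [h2]
    simp only [h2]
    refine tendsto_finsetSum _ fun i _ => Tendsto.mul_const _ ?_
    exact ((continuous_algebraMap K L).tendsto _).comp (hlimc x i)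
  have h3 : Tendsto (fun g => ((∏ i, (t - z g x i)) *
      ∏ i, (t - algebraMap K L (lam g) / z g x i)) * ∏ j, (t - y g x j)) u
      (𝓝 (((∏ i, (t - a x i)) * ∏ i, (t - a' x i)) * ∏ j, (t - b x j))) :=
    ((tendsto_finsetProd _ fun i _ => (ha x i).const_sub t).mul
      (tendsto_finsetProd _ fun i _ => (ha' x i).const_sub t)).mul
      (tendsto_finsetProd _ fun j _ => (hb x j).const_sub t)
  simp only [haq] at h3
  refine tendsto_nhds_unique (h1.congr' ?_) h3
  filter_upwards [hA'] with g hg
  exact hcm g hg x t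

end Pool.Agent.H43GS
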