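import Mathlib
import Pool.Agent.Lib.H43.GS.Fam
import Pool.Agent.Lib.Helper4.GSD.Defs

/-!
# Semisimplicity at all primes, over arbitrary number fields
-/

namespace Pool.Agent.H43GS

open Polynomial Module Filter Topology NumberField TensorProduct Pool.Agent.GSem Pool.Agent.Ord
open Pool.Agent.GSD (IsCont IsSemisimple IsPolar)

section setting

variable {Ω : Type*} [Field Ω] [CharZero Ω]

/-- The conjugate `x⁻¹ g x` of an element of the normal core of `Γ`, as an element of `Γ`. -/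
def conjIn {Γ : Subgroup Gal(Ω/ℚ)} (g : Γ.normalCore) (x : Gal(Ω/ℚ)) : Γ :=
  ⟨x⁻¹ * g * x, by
    have h := Γ.normalCore_normal.conj_mem g g.2 x⁻¹
    rw [inv_inv] at h
    exact Γ.normalCore_le h⟩

theorem conjIn_pow {Γ : Subgroup Gal(Ω/ℚ)} (g : Γ.normalCore) (x : Gal(Ω/ℚ)) (m : ℕ) :
    conjIn (g ^ m) x = conjIn g x ^ m := by
  apply Subtype.ext
  show x⁻¹ * ((g ^ m : Γ.normalCore) : Gal(Ω/ℚ)) * x = (((conjIn g x) ^ m : Γ) : Gal(Ω/ℚ))
  rw [SubmonoidClass.coe_pow, SubmonoidClass.coe_pow]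
  show x⁻¹ * (g : Gal(Ω/ℚ)) ^ m * x = (x⁻¹ * (g : Gal(Ω/ℚ)) * x) ^ m
  have h := conj_pow (i := m) (a := x⁻¹) (b := (g : Gal(Ω/ℚ)))
  rw [inv_inv] at h
  exact h.symm

theorem continuous_conjIn {Γ : Subgroup Gal(Ω/ℚ)} (x : Gal(Ω/ℚ)) :
    Continuous fun g : Γ.normalCore => conjIn g x := by
  refine Continuous.subtype_mk ?_ _
  exact (continuous_const.mul continuous_subtype_val).mul continuous_const

end setting

section rep

variable {p : ℕ} [hp : Fact p.Prime] {Ω : Type*} [Field Ω] [CharZero Ω]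
variable {V : Type*} [AddCommGroup V] [Module ℚ_[p] V]

theorem isSemisimple_of_isotropic [FiniteDimensional ℚ_[p] V] {Γ : Subgroup Gal(Ω/ℚ)}
    (ρ : Representation ℚ_[p] Γ V) (w : ℤ)
    (B : V →ₗ[ℚ_[p]] V →ₗ[ℚ_[p]] ℚ_[p]) (hB : IsPolar ρ w B)
    (h : ∀ U : Submodule ℚ_[p] V, (∀ g, ∀ x ∈ U, ρ g x ∈ U) →
      (∀ x ∈ U, ∀ y ∈ U, B x y = 0) → U = ⊥) : IsSemisimple ρ := by
  intro W hW
  have hWp : ∀ g, ∀ x ∈ perp B W, ρ g x ∈ perp B W := by
    intro g y hy x hx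
    have h1 := hB.2 g (ρ g⁻¹ x) y
    have h2 : ρ g (ρ g⁻¹ x) = x := by
      have : ρ g (ρ g⁻¹ x) = (ρ g * ρ g⁻¹) x := rfl
      rw [this, ← map_mul, mul_inv_cancel, map_one]
      rfl
    rw [h2, hy _ (hW g⁻¹ x hx), mul_zero] at h1
    exact h1
  refine ⟨perp B W, hWp, isCompl_perp B W ?_⟩
  apply h
  · intro g x hx
    exact ⟨hW g x hx.1, hWp g x hx.2⟩
  · intro x hx y hy
    exact hy.2 x hx.1

end rep

section density

variable {Ω : Type*} [Field Ω] [CharZero Ω] [IsAlgClosure ℚ Ω]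

/-- The powers of Frobenius elements of the normal core at large primes are dense in it. -/
theorem mem_closure_frob_core {Γ : Subgroup Gal(Ω/ℚ)} (hΓ : IsOpen (Γ : Set Gal(Ω/ℚ))) (b : ℕ)
    (g : Γ.normalCore) (A : Set Γ.normalCore)
    (hA : ∀ q : ℕ, b < q → q.Prime → ∀ φ : Γ.normalCore, IsFrobAt q (φ : Gal(Ω/ℚ)) →
      ∀ m : ℕ, φ ^ m ∈ A) : g ∈ closure A := by
  have hG : IsGalois ℚ Ω := isGaloisΩ
  have hfinΓ : Γ.FiniteIndex := by
    have := Subgroup.quotient_finite_of_isOpen Γ hΓ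
    exact Subgroup.finiteIndex_of_finite_quotient
  have hcore : IsOpen (Γ.normalCore : Set Gal(Ω/ℚ)) := by
    have hcl : IsClosed (Γ : Set Gal(Ω/ℚ)) := Subgroup.isClosed_of_isOpen Γ hΓ
    have hcl' : IsClosed (Γ.normalCore : Set Gal(Ω/ℚ)) := Γ.normalCore_isClosed hcl
    exact Subgroup.isOpen_of_isClosed_of_finiteIndex _ hcl'
  rw [mem_closure_iff]
  intro U hU hgU
  obtain ⟨U', hU', rfl⟩ := isOpen_induced_iff.1 hU
  have hU2 : IsOpen ((fun x => (g : Gal(Ω/ℚ)) * x) ⁻¹' (U' ∩ Γ.normalCore)) :=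
    (hU'.inter hcore).preimage (continuous_const_mul (g : Gal(Ω/ℚ)))
  obtain ⟨N, hN⟩ := ProfiniteGrp.exist_openNormalSubgroup_sub_open_nhds_of_one hU2
    (by rw [Set.mem_preimage, mul_one]; exact ⟨hgU, g.2⟩)
  have hNo : IsOpen ((N.toSubgroup : Subgroup Gal(Ω/ℚ)) : Set Gal(Ω/ℚ)) := N.isOpen'
  have hfin := finite_quotient N.toSubgroup hNo
  obtain ⟨q, hbq, hq, φ, hφ, k, hk, hφk⟩ := exists_frob_gen N.toSubgroup hNo (g : Gal(Ω/ℚ)) b
  -- the Frobenius element lies in the core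
  have hφcore : φ ∈ Γ.normalCore := by
    rw [← QuotientGroup.mk_pow] at hφk
    have h1 : ((g : Gal(Ω/ℚ)) ^ k)⁻¹ * φ ∈ N.toSubgroup := QuotientGroup.eq.1 hφk.symm
    have h2 : N.toSubgroup ≤ Γ.normalCore := by
      intro y hy
      have h3 := hN hy
      rw [Set.mem_preimage] at h3
      have h4 : (g : Gal(Ω/ℚ))⁻¹ * ((g : Gal(Ω/ℚ)) * y) ∈ Γ.normalCore :=
        Γ.normalCore.mul_mem (Γ.normalCore.inv_mem g.2) h3.2
      rwa [inv_mul_cancel_left] at h4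
    have h5 := Γ.normalCore.mul_mem (Γ.normalCore.pow_mem g.2 k) (h2 h1)
    rwa [mul_inv_cancel_left] at h5
  obtain ⟨m, hm⟩ := exists_pow_eq_self_of_coprime hk
  rw [← hφk, ← QuotientGroup.mk_pow] at hm
  have h1 : (g : Gal(Ω/ℚ))⁻¹ * φ ^ m ∈ N.toSubgroup := QuotientGroup.eq.1 hm.symm
  refine ⟨(⟨φ, hφcore⟩ : Γ.normalCore) ^ m, ?_, hA q hbq hq ⟨φ, hφcore⟩ hφ m⟩
  have h2 := hN h1
  rw [Set.mem_preimage, mul_inv_cancel_left] at h2
  exact h2.1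

end density

end Pool.Agent.H43GS
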