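import Mathlib
import Pool.Agent.Lib.H43.GS.NumField
import Pool.Agent.Lib.Helper90.GSem.WD
import Pool.Agent.Lib.H99.PD.Tate2

/-!
# Determinants of stable subspaces, over arbitrary number fields
-/

namespace Pool.Agent.H43GS

open Polynomial Module Filter Topology NumberField TensorProduct Pool.Agent.GSem Pool.Agent.Ord
open Pool.Agent.GSD (IsCont IsSemisimple IsPolar)

section unit

variable {p : ℕ} [hp : Fact p.Prime] {G : Type*} [Group G] [TopologicalSpace G]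
  [IsTopologicalGroup G] [CompactSpace G]

/-- A continuous multiplicative function on a compact group has values in the units. -/
theorem exists_unit_char' (D : G →* ℚ_[p]) (hD : Continuous D) :
    ∃ δ : G →* ℤ_[p]ˣ, Continuous δ ∧ ∀ g, toQ (δ g) = D g := by
  obtain ⟨g₀, _, hg₀⟩ := isCompact_univ.exists_isMaxOn (Set.univ_nonempty (α := G))
    (f := fun x => ‖D x‖) (hD.norm.continuousOn)
  have hb : ∀ g, ‖D g‖ ≤ ‖D g₀‖ := fun g => hg₀ (Set.mem_univ g)
  have hle : ∀ g, ‖D g‖ ≤ 1 := by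
    intro g
    by_contra hcon
    push Not at hcon
    obtain ⟨n, hn⟩ := pow_unbounded_of_one_lt ‖D g₀‖ hcon
    have h1 := hb (g ^ n)
    rw [map_pow, norm_pow] at h1
    linarith
  have hone : ∀ g, ‖D g‖ = 1 := by
    intro g
    have h1 : ‖D g‖ * ‖D g⁻¹‖ = 1 := by
      rw [← norm_mul, ← map_mul, mul_inv_cancel, map_one, norm_one]
    have h2 := hle g
    have h3 := hle g⁻¹
    have h4 := norm_nonneg (D g)
    have h5 := norm_nonneg (D g⁻¹)
    nlinarith
  choose δ hδ using fun g => exists_toQ (hone g)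
  refine ⟨⟨⟨δ, ?_⟩, ?_⟩, ?_, hδ⟩
  · apply toQ_injective
    rw [hδ, map_one, map_one]
  · intro a b
    apply toQ_injective
    rw [map_mul, hδ, hδ, hδ, map_mul]
  · have hval : Continuous fun g => ((δ g : ℤ_[p]ˣ) : ℤ_[p]) := by
      have h1 : (fun g => ((δ g : ℤ_[p]ˣ) : ℤ_[p])) = fun g => ⟨D g, (hone g).le⟩ := by
        funext g
        apply Subtype.ext
        exact hδ g
      rw [h1]
      exact hD.subtype_mk _
    have hinv : ∀ g, ((δ g)⁻¹ : ℤ_[p]ˣ) = δ g⁻¹ := by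
      intro g
      apply toQ_injective
      have h1 : toQ (δ g) * toQ (δ g)⁻¹ = 1 := by rw [← map_mul, mul_inv_cancel, map_one]
      have h2 : toQ (δ g) * toQ (δ g⁻¹) = 1 := by
        rw [hδ, hδ, ← map_mul, mul_inv_cancel, map_one]
      exact mul_left_cancel₀ (toQ_ne_zero (δ g)) (h1.trans h2.symm)
    change Continuous δ
    rw [Units.continuous_iff]
    refine ⟨hval, ?_⟩
    have h3 : (fun g => (((δ g)⁻¹ : ℤ_[p]ˣ) : ℤ_[p])) = fun g => ((δ g⁻¹ : ℤ_[p]ˣ) : ℤ_[p]) := by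
      funext g
      rw [hinv]
    exact h3 ▸ hval.comp continuous_inv

end unit

section adapted

variable {p : ℕ} [hp : Fact p.Prime] {Ω : Type*} [Field Ω] [CharZero Ω]
  {Γ : Subgroup Gal(Ω/ℚ)}
variable {V : Type*} [AddCommGroup V] [Module ℚ_[p] V]

/-- `ρ` is Hodge–Tate with weights `h` at the place given by `ι`, with respect to the basis `e`. -/
def IsHTBasisAt (ι : Ω →+* PadicAlgCl p) (ρ : Representation ℚ_[p] Γ V) {n : ℕ}
    (h : Fin n → ℤ) (e : Basis (Fin n) ℂ_[p] (ℂ_[p] ⊗[ℚ_[p]] V)) : Prop :=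
  ∀ (σ : Gal(PadicAlgCl p/ℚ_[p])) (g : Γ), Compat ι σ (g : Gal(Ω/ℚ)) → ∀ i,
    semi σ (ρ g) (e i) = algebraMap ℚ_[p] ℂ_[p] (toQ (cyc p Ω (g : Gal(Ω/ℚ))) ^ (-h i)) • e i

variable [FiniteDimensional ℚ_[p] V]

/-- An adapted basis of a stable subspace. -/
theorem exists_adapted' (ι : Ω →+* PadicAlgCl p) (ρ : Representation ℚ_[p] Γ V) {n : ℕ}
    (h : Fin n → ℤ) (e : Basis (Fin n) ℂ_[p] (ℂ_[p] ⊗[ℚ_[p]] V)) (he : IsHTBasisAt ι ρ h e)
    (X : Submodule ℂ_[p] (ℂ_[p] ⊗[ℚ_[p]] V))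
    (hX : ∀ σ (g : Γ), Compat ι σ (g : Gal(Ω/ℚ)) → ∀ x ∈ X, semi σ (ρ g) x ∈ X) :
    ∃ (J : Fin (finrank ℂ_[p] X) → Fin n) (v : Fin (finrank ℂ_[p] X) → ℂ_[p] ⊗[ℚ_[p]] V),
      (∀ j, v j ∈ X) ∧ LinearIndependent ℂ_[p] v ∧
      ∀ σ (g : Γ), Compat ι σ (g : Gal(Ω/ℚ)) → ∀ j, semi σ (ρ g) (v j) =
        algebraMap ℚ_[p] ℂ_[p] (toQ (cyc p Ω (g : Gal(Ω/ℚ))) ^ (-h (J j))) • v j := by
  classical
  obtain ⟨κ, a, ha, hspan, hli⟩ := exists_linearIndependent' (K := ℂ_[p])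
    (fun i : Fin n => X.mkQ (e i))
  have hfin : Fintype κ := Fintype.ofInjective a ha
  have htop : Submodule.span ℂ_[p] (Set.range fun i : Fin n => X.mkQ (e i)) = ⊤ := by
    have h1 : (Set.range fun i : Fin n => X.mkQ (e i)) = X.mkQ '' (Set.range e) := by
      rw [← Set.range_comp]; rfl
    rw [h1, Submodule.span_image, e.span_eq, Submodule.map_top, LinearMap.range_eq_top]
    exact Submodule.mkQ_surjective X
  rw [htop] at hspan
  -- coordinates
  have hc : ∀ i : Fin n, ∃ c : κ → ℂ_[p], ∑ k, c k • X.mkQ (e (a k)) = X.mkQ (e i) := by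
    intro i
    have h1 : X.mkQ (e i) ∈ Submodule.span ℂ_[p]
        (Set.range ((fun i : Fin n => X.mkQ (e i)) ∘ a)) := by
      rw [hspan]; trivial
    exact (Submodule.mem_span_range_iff_exists_fun _).1 h1
  choose c hc using hc
  have hcardκ : Fintype.card κ + finrank ℂ_[p] X = n := by
    have h1 : finrank ℂ_[p] ((ℂ_[p] ⊗[ℚ_[p]] V) ⧸ X) = Fintype.card κ := by
      rw [← finrank_top ℂ_[p] ((ℂ_[p] ⊗[ℚ_[p]] V) ⧸ X), ← hspan, finrank_span_eq_card hli]
    have h2 := Submodule.finrank_quotient_add_finrank X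
    rw [h1, finrank_eq_card_basis e, Fintype.card_fin] at h2
    exact h2
  set Jc : Finset (Fin n) := (Finset.univ.image a)ᶜ with hJc
  have hJcard : Jc.card = finrank ℂ_[p] X := by
    rw [hJc, Finset.card_compl, Finset.card_image_of_injective _ ha, Finset.card_univ,
      Fintype.card_fin]
    omega
  have hmem : ∀ i, i ∈ Jc ↔ ∀ k, a k ≠ i := by
    intro i
    rw [hJc, Finset.mem_compl, Finset.mem_image]
    push Not
    exact ⟨fun h k => h k (Finset.mem_univ k), fun h k _ => h k⟩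
  let ε : Fin (finrank ℂ_[p] X) ≃ Jc := (finCongr hJcard.symm).trans Jc.equivFin.symm
  -- the vectors
  let u : Fin n → ℂ_[p] ⊗[ℚ_[p]] V := fun i => e i - ∑ k, c i k • e (a k)
  have huX : ∀ i, u i ∈ X := by
    intro i
    rw [← Submodule.ker_mkQ X, LinearMap.mem_ker, map_sub, map_sum]
    simp only [map_smul]
    rw [hc, sub_self]
  have hrepr : ∀ i ∈ Jc, ∀ j, e.repr (u j) i = if j = i then 1 else 0 := by
    intro i hi j
    rw [map_sub, e.repr_self, Finsupp.sub_apply, Finsupp.single_apply, map_sum,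
      Finsupp.finsetSum_apply]
    have h1 : ∑ k, e.repr (c j k • e (a k)) i = 0 := by
      refine Finset.sum_eq_zero fun k _ => ?_
      rw [map_smul, e.repr_self, Finsupp.smul_apply, Finsupp.single_apply,
        if_neg ((hmem i).1 hi k), smul_zero]
    rw [h1, sub_zero]
  -- vectors of `X` with zero coordinates
  have hzero : ∀ z ∈ X, (∀ i ∈ Jc, e.repr z i = 0) → z = 0 := by
    intro z hz hz0
    have h1 : z = ∑ k, e.repr z (a k) • e (a k) := by
      conv_lhs => rw [← e.sum_repr z]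
      have h2 : ∑ k, e.repr z (a k) • e (a k) =
          ∑ i ∈ Finset.univ.image a, e.repr z i • e i := by
        rw [Finset.sum_image (fun x _ y _ hxy => ha hxy)]
      rw [h2]
      symm
      apply Finset.sum_subset (Finset.subset_univ _)
      intro i _ hi
      rw [hz0 i (by rw [hJc, Finset.mem_compl]; exact hi), zero_smul]
    have h2 : X.mkQ z = 0 := by
      rw [← LinearMap.mem_ker, Submodule.ker_mkQ]; exact hz
    rw [h1, map_sum] at h2
    simp only [map_smul] at h2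
    have h3 := Fintype.linearIndependent_iff.1 hli _ h2
    rw [h1]
    exact Finset.sum_eq_zero fun k _ => by rw [h3 k, zero_smul]
  refine ⟨fun j => ε j, fun j => u (ε j), fun j => huX _, ?_, ?_⟩
  · rw [Fintype.linearIndependent_iff]
    intro g hg j
    have h1 := congrArg (fun z => e.repr z (ε j)) hg
    simp only [map_sum, map_smul, Finsupp.finsetSum_apply, Finsupp.smul_apply, map_zero,
      Finsupp.zero_apply, smul_eq_mul] at h1
    rw [Finset.sum_eq_single j] at h1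
    · rw [hrepr _ (ε j).2, if_pos rfl, mul_one] at h1
      exact h1
    · intro k _ hk
      rw [hrepr _ (ε j).2, if_neg, mul_zero]
      intro h2
      exact hk (ε.injective (Subtype.ext h2))
    · intro h2; exact absurd (Finset.mem_univ j) h2
  · intro σ g hcσ j
    rw [← sub_eq_zero]
    apply hzero
    · exact X.sub_mem (hX σ g hcσ _ (huX _)) (X.smul_mem _ (huX _))
    · intro i hi
      rw [map_sub, Finsupp.sub_apply, map_smul, Finsupp.smul_apply,
        repr_semi e σ (ρ g) _ (he σ g hcσ), hrepr i hi, smul_eq_mul]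
      split_ifs with h1
      · rw [map_one, one_mul, mul_one]
        dsimp only
        rw [h1, sub_self]
      · rw [map_zero, zero_mul, mul_zero, sub_self]

/-- The determinant on a stable subspace, at one place. -/
theorem exists_det_at (ι : Ω →+* PadicAlgCl p) (ρ : Representation ℚ_[p] Γ V) {n : ℕ}
    (h : Fin n → ℤ) (e : Basis (Fin n) ℂ_[p] (ℂ_[p] ⊗[ℚ_[p]] V)) (he : IsHTBasisAt ι ρ h e)
    (U : Submodule ℚ_[p] V) (hU : ∀ g, ∀ u ∈ U, ρ g u ∈ U) :
    ∃ (H : ℤ) (c : ℂ_[p]), c ≠ 0 ∧ ∀ σ (g : Γ), Compat ι σ (g : Gal(Ω/ℚ)) →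
      galC σ c * algebraMap ℚ_[p] ℂ_[p] (LinearMap.det ((ρ g).restrict (hU g))) =
      algebraMap ℚ_[p] ℂ_[p] (toQ (cyc p Ω (g : Gal(Ω/ℚ))) ^ (-H)) * c := by
  classical
  set d := finrank ℚ_[p] U with hd
  let b : Basis (Fin d) ℚ_[p] U := Module.finBasis ℚ_[p] U
  have hX : ∀ σ (g : Γ), Compat ι σ (g : Gal(Ω/ℚ)) → ∀ x ∈ ext U, semi σ (ρ g) x ∈ ext U :=
    fun σ g _ x hx => semi_mem_ext σ (ρ g) (hU g) x hx
  have hdim : finrank ℂ_[p] (ext U) = d := by
    have h1 : ext U = Submodule.span ℂ_[p]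
        (Set.range fun k => (1 : ℂ_[p]) ⊗ₜ[ℚ_[p]] (b k : V)) := by
      ext x
      rw [mem_ext_iff b, Submodule.mem_span_range_iff_exists_fun]
    rw [h1, finrank_span_eq_card (linearIndependent_one_tmul b), Fintype.card_fin]
  obtain ⟨J, v, hvX, hvli, hvs⟩ := exists_adapted' ι ρ h e he (ext U) hX
  let ε : Fin d ≃ Fin (finrank ℂ_[p] (ext U)) := finCongr hdim.symm
  choose M hM using fun j : Fin d => (mem_ext_iff b (v (ε j))).1 (hvX _)
  have hM' : ∀ j, v (ε j) = ∑ k, (Matrix.of M) j k • ((1 : ℂ_[p]) ⊗ₜ[ℚ_[p]] (b k : V)) :=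
    fun j => (hM j).symm
  have hdet0 : (Matrix.of M).det ≠ 0 :=
    det_ne_zero_of_linearIndependent b (fun j => v (ε j)) _ hM' (hvli.comp _ ε.injective)
  refine ⟨∑ j : Fin d, h (J (ε j)), (Matrix.of M).det, hdet0, ?_⟩
  intro σ g hc
  have h1 := det_relation b (fun j => v (ε j)) (Matrix.of M) hM' σ (ρ g) (hU g)
    (fun j => algebraMap ℚ_[p] ℂ_[p] (toQ (cyc p Ω (g : Gal(Ω/ℚ))) ^ (-h (J (ε j)))))
    (fun j => hvs σ g hc (ε j))
  have h2 : ∏ j : Fin d, algebraMap ℚ_[p] ℂ_[p]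
      (toQ (cyc p Ω (g : Gal(Ω/ℚ))) ^ (-h (J (ε j)))) =
      algebraMap ℚ_[p] ℂ_[p] (toQ (cyc p Ω (g : Gal(Ω/ℚ))) ^ (-∑ j : Fin d, h (J (ε j)))) := by
    rw [← map_prod]
    congr 1
    rw [← Finset.sum_neg_distrib, prod_zpow_sum (toQ_ne_zero _)]
  rw [h2] at h1
  exact h1

end adapted

end Pool.Agent.H43GS
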