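import Mathlib
import Pool.Agent.Lib.H43.GS.DetF

/-!
# Determinants of stable subspaces, over arbitrary number fields: transfer to `ℚ`
-/

namespace Pool.Agent.H43GS

open Polynomial Module Filter Topology NumberField TensorProduct Pool.Agent.GSem Pool.Agent.Ord
open Pool.Agent.GSD (IsCont IsSemisimple IsPolar)

section

open Subgroup MulAction Subgroup.leftTransversals

/-- The transfer on the normal core. -/
theorem transfer_core {G A : Type*} [Group G] [CommGroup A] {Γ : Subgroup G} [Γ.FiniteIndex]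
    [Fintype (G ⧸ Γ)] (δ : Γ →* A) (g : G)
    (hmem : ∀ x : G, x⁻¹ * g * x ∈ Γ) :
    MonoidHom.transfer δ g = ∏ x : G ⧸ Γ, δ ⟨x.out⁻¹ * g * x.out, hmem _⟩ := by
  classical
  let T : Γ.LeftTransversal := ⟨Set.range (Quotient.out : G ⧸ Γ → G),
    isComplement_range_left (fun q => QuotientGroup.out_eq' q)⟩
  have hT : ∀ q : G ⧸ Γ, (T.2.leftQuotientEquiv q : G) = q.out := fun q =>
    IsComplement.leftQuotientEquiv_apply (fun q => QuotientGroup.out_eq' q) q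
  rw [MonoidHom.transfer_def δ T g]
  have hact : ∀ q : G ⧸ Γ, g⁻¹ • q = q := by
    intro q
    induction q using QuotientGroup.induction_on with
    | H y =>
      rw [MulAction.Quotient.smul_mk, smul_eq_mul, QuotientGroup.eq]
      have h1 := hmem y
      have h2 : (g⁻¹ * y)⁻¹ * y = y⁻¹ * g * y := by group
      rw [h2]
      exact h1
  unfold diff
  simp only
  refine Finset.prod_congr (by ext; simp) fun q _ => ?_
  congr 1
  apply Subtype.ext
  show (T.2.leftQuotientEquiv q : G)⁻¹ * ((g • T).2.leftQuotientEquiv q : G) = _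
  rw [smul_apply_eq_smul_apply_inv_smul, hact, hT, smul_eq_mul]
  exact (mul_assoc _ _ _).symm

end

section

variable {p : ℕ} [hp : Fact p.Prime] {Ω : Type*} [Field Ω] [CharZero Ω]

/-- The embedding `ι` composed with the automorphism `x`. -/
noncomputable def embX (ι : Ω →+* PadicAlgCl p) (x : Gal(Ω/ℚ)) : Ω →+* PadicAlgCl p :=
  ι.comp (x : Ω ≃+* Ω).toRingHom

theorem embX_apply (ι : Ω →+* PadicAlgCl p) (x : Gal(Ω/ℚ)) (y : Ω) : embX ι x y = ι (x y) := rfl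

theorem compat_conj {ι : Ω →+* PadicAlgCl p} {σ : Gal(PadicAlgCl p/ℚ_[p])} {g : Gal(Ω/ℚ)}
    (h : Compat ι σ g) (x : Gal(Ω/ℚ)) : Compat (embX ι x) σ (x⁻¹ * g * x) := by
  intro y
  rw [embX_apply, embX_apply, ← h (x y)]
  congr 1
  show x ((x⁻¹ * g * x) y) = g (x y)
  rw [← AlgEquiv.mul_apply, ← AlgEquiv.mul_apply]
  congr 1
  group

theorem cyc_conj (g x : Gal(Ω/ℚ)) : cyc p Ω (x⁻¹ * g * x) = cyc p Ω g := by
  rw [map_mul, map_mul, map_inv, mul_comm, mul_inv_cancel_left]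

variable [IsAlgClosed Ω] [IsGalois ℚ Ω]
variable {Γ : Subgroup Gal(Ω/ℚ)}
variable {V : Type*} [AddCommGroup V] [Module ℚ_[p] V] [FiniteDimensional ℚ_[p] V]

/-- The determinant on a stable subspace. -/
noncomputable def detF (ρ : Representation ℚ_[p] Γ V) (U : Submodule ℚ_[p] V)
    (hU : ∀ g, ∀ u ∈ U, ρ g u ∈ U) : Γ →* ℚ_[p] where
  toFun g := LinearMap.det ((ρ g).restrict (hU g))
  map_one' := by
    have h1 : (ρ 1).restrict (hU 1) = LinearMap.id := by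
      ext x
      rw [LinearMap.coe_restrict_apply, map_one]
      rfl
    rw [h1, LinearMap.det_id]
  map_mul' a b := by
    have h1 : (ρ (a * b)).restrict (hU (a * b)) =
        (ρ a).restrict (hU a) * (ρ b).restrict (hU b) := by
      ext x
      rw [LinearMap.coe_restrict_apply, map_mul]
      rfl
    rw [h1, map_mul]

omit [IsAlgClosed Ω] [IsGalois ℚ Ω] [FiniteDimensional ℚ_[p] V] in
theorem detF_apply (ρ : Representation ℚ_[p] Γ V) (U : Submodule ℚ_[p] V)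
    (hU : ∀ g, ∀ u ∈ U, ρ g u ∈ U) (g : Γ) :
    detF ρ U hU g = LinearMap.det ((ρ g).restrict (hU g)) := rfl

omit [IsAlgClosed Ω] [IsGalois ℚ Ω] in
theorem continuous_detF (ρ : Representation ℚ_[p] Γ V) (hρ : IsCont ρ) (U : Submodule ℚ_[p] V)
    (hU : ∀ g, ∀ u ∈ U, ρ g u ∈ U) : Continuous (detF ρ U hU) := by
  classical
  let b := Module.finBasis ℚ_[p] U
  have h1 : (fun g => detF ρ U hU g) =
      (fun M : Matrix (Fin (finrank ℚ_[p] U)) (Fin (finrank ℚ_[p] U)) ℚ_[p] => M.det) ∘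
      fun g => LinearMap.toMatrix b b ((ρ g).restrict (hU g)) := by
    funext g
    rw [Function.comp_apply, LinearMap.det_toMatrix]
    rfl
  change Continuous fun g => detF ρ U hU g
  rw [h1]
  refine (continuous_id.matrix_det).comp (continuous_matrix fun i j => ?_)
  obtain ⟨f, hf⟩ := LinearMap.exists_extend (b.coord i)
  have h2 : (fun g => LinearMap.toMatrix b b ((ρ g).restrict (hU g)) i j) =
      fun g => f (ρ g (b j)) := by
    funext g
    rw [LinearMap.toMatrix_apply]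
    have h3 := LinearMap.congr_fun hf ((ρ g).restrict (hU g) (b j))
    rw [LinearMap.comp_apply] at h3
    exact h3.symm
  rw [h2]
  exact hρ _ _

/-- **Determinants over number fields**: the transfer to `ℚ` of the determinant of a stable subspace
is, up to finite order, a power of the cyclotomic character. -/
theorem exists_transfer_power (hΓ : IsOpen (Γ : Set Gal(Ω/ℚ))) [Fintype (Gal(Ω/ℚ) ⧸ Γ)]
    (ι : Ω →+* PadicAlgCl p) (ρ : Representation ℚ_[p] Γ V) (hρ : IsCont ρ)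
    (hHT : ∀ ι : Ω →+* PadicAlgCl p, ∃ (n : ℕ) (h : Fin n → ℤ)
      (e : Basis (Fin n) ℂ_[p] (ℂ_[p] ⊗[ℚ_[p]] V)), IsHTBasisAt ι ρ h e)
    (U : Submodule ℚ_[p] V) (hU : ∀ g, ∀ u ∈ U, ρ g u ∈ U) :
    ∃ (H : ℤ) (N : ℕ), 0 < N ∧ ∀ g : Γ.normalCore,
      (∏ x : Gal(Ω/ℚ) ⧸ Γ, detF ρ U hU (conjIn g x.out)) ^ N =
        toQ (cyc p Ω (g : Gal(Ω/ℚ))) ^ (-(H * N)) := by
  classical
  have hfinΓ : Γ.FiniteIndex := by
    have := Subgroup.quotient_finite_of_isOpen Γ hΓ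
    exact Subgroup.finiteIndex_of_finite_quotient
  have hcl : IsClosed (Γ : Set Gal(Ω/ℚ)) := Subgroup.isClosed_of_isOpen Γ hΓ
  have hcore : IsOpen (Γ.normalCore : Set Gal(Ω/ℚ)) :=
    Subgroup.isOpen_of_isClosed_of_finiteIndex _ (Γ.normalCore_isClosed hcl)
  have hcomp : CompactSpace Γ := isCompact_iff_compactSpace.1 hcl.isCompact
  obtain ⟨δ, hδc, hδ⟩ := exists_unit_char' (detF ρ U hU) (continuous_detF ρ hρ U hU)
  set Ψ : Gal(Ω/ℚ) →* ℤ_[p]ˣ := MonoidHom.transfer δ with hΨ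
  have hΨcore : ∀ g : Γ.normalCore, Ψ (g : Gal(Ω/ℚ)) = ∏ x : Gal(Ω/ℚ) ⧸ Γ, δ (conjIn g x.out) := by
    intro g
    exact transfer_core δ (g : Gal(Ω/ℚ)) (fun x => (conjIn g x).2)
  -- continuity of the transfer
  have hΨc : Continuous Ψ := by
    apply continuous_of_continuousAt_one
    have h1 : ContinuousOn Ψ (Γ.normalCore : Set Gal(Ω/ℚ)) := by
      rw [continuousOn_iff_continuous_domRestrict]
      have h2 : (Γ.normalCore : Set Gal(Ω/ℚ)).domRestrict Ψ =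
          fun g : Γ.normalCore => ∏ x : Gal(Ω/ℚ) ⧸ Γ, δ (conjIn g x.out) := by
        funext g
        exact hΨcore g
      rw [h2]
      exact continuous_finsetProd _ fun x _ => hδc.comp (continuous_conjIn x.out)
    exact h1.continuousAt (hcore.mem_nhds (one_mem _))
  -- the local relations
  choose n h e he using hHT
  choose H c hc0 hc using fun x : Gal(Ω/ℚ) ⧸ Γ =>
    exists_det_at (embX ι x.out) ρ (h (embX ι x.out)) (e (embX ι x.out)) (he (embX ι x.out)) U hU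
  set C := ∏ x, c x with hC
  have hC0 : C ≠ 0 := Finset.prod_ne_zero_iff.2 fun x _ => hc0 x
  set Hs := ∑ x, H x with hHs
  have hrel : ∀ σ (g : Γ.normalCore), Compat ι σ (g : Gal(Ω/ℚ)) →
      galC σ C * algebraMap ℚ_[p] ℂ_[p] (toQ (Ψ (g : Gal(Ω/ℚ)))) =
      algebraMap ℚ_[p] ℂ_[p] (toQ (cyc p Ω (g : Gal(Ω/ℚ))) ^ (-Hs)) * C := by
    intro σ g hg
    rw [hΨcore, hC, map_prod, map_prod, map_prod, ← Finset.prod_mul_distrib]
    have h1 : ∀ x : Gal(Ω/ℚ) ⧸ Γ, galC σ (c x) * algebraMap ℚ_[p] ℂ_[p] (toQ (δ (conjIn g x.out))) =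
        algebraMap ℚ_[p] ℂ_[p] (toQ (cyc p Ω (g : Gal(Ω/ℚ))) ^ (-H x)) * c x := by
      intro x
      have h2 := hc x σ (conjIn g x.out) (compat_conj hg x.out)
      have h3 : cyc p Ω ((conjIn g x.out : Γ) : Gal(Ω/ℚ)) = cyc p Ω (g : Gal(Ω/ℚ)) :=
        cyc_conj _ _
      rw [h3] at h2
      rw [hδ, detF_apply]
      exact h2
    rw [Finset.prod_congr rfl fun x _ => h1 x, Finset.prod_mul_distrib, ← map_prod,
      prod_zpow_sum (toQ_ne_zero _), Finset.sum_neg_distrib]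
  let ψ : Gal(Ω/ℚ) →* ℤ_[p]ˣ := (cyc p Ω) ^ (-Hs) * Ψ⁻¹
  have hψ : ∀ g, ψ g = cyc p Ω g ^ (-Hs) * (Ψ g)⁻¹ := fun g => rfl
  have hψc : Continuous ψ := by
    have h1 : (ψ : Gal(Ω/ℚ) → ℤ_[p]ˣ) = fun g => cyc p Ω g ^ (-Hs) * (Ψ g)⁻¹ := by
      funext g; exact hψ g
    rw [h1]
    exact ((continuous_cyc p Ω).zpow _).mul hΨc.inv
  have hfincore : Γ.normalCore.FiniteIndex := inferInstance
  obtain ⟨k, hk, c', hc', hkc⟩ := Pool.Agent.PD.exists_norm ι Γ.normalCore ψ C hC0 (by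
    intro σ g hg hgΓ
    have h1 := hrel σ ⟨g, hgΓ⟩ hg
    have h2 : algebraMap ℚ_[p] ℂ_[p] (toQ (Ψ g)) ≠ 0 := by
      rw [Ne, map_eq_zero]
      exact toQ_ne_zero _
    rw [hψ, map_mul, map_zpow, map_mul]
    have h3 : toQ (Ψ g)⁻¹ = (toQ (Ψ g))⁻¹ := map_inv _ _
    rw [h3, map_inv₀]
    have h1' : galC σ C * algebraMap ℚ_[p] ℂ_[p] (toQ (Ψ g)) =
      algebraMap ℚ_[p] ℂ_[p] (toQ (cyc p Ω g) ^ (-Hs)) * C := h1
    field_simp
    linear_combination h1')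
  obtain ⟨N, hN, hNψ⟩ := finite_order ι (ψ ^ k) (by
      have h1 : ((ψ ^ k : Gal(Ω/ℚ) →* ℤ_[p]ˣ) : Gal(Ω/ℚ) → ℤ_[p]ˣ) = fun g => ψ g ^ k := by
        funext g
        rfl
      rw [h1]
      exact hψc.pow k) c' hc' (by
    intro σ g hg
    have h1 := hkc σ g hg
    have h2 : (ψ ^ k : Gal(Ω/ℚ) →* ℤ_[p]ˣ) g = ψ g ^ k := rfl
    rw [h2, map_pow]
    exact h1)
  refine ⟨Hs, k * N, Nat.mul_pos hk hN, fun g => ?_⟩
  have h1 : (ψ (g : Gal(Ω/ℚ))) ^ (k * N) = 1 := by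
    have h2 := hNψ (g : Gal(Ω/ℚ))
    have h3 : (ψ ^ k : Gal(Ω/ℚ) →* ℤ_[p]ˣ) (g : Gal(Ω/ℚ)) = ψ (g : Gal(Ω/ℚ)) ^ k := rfl
    rw [h3, ← pow_mul] at h2
    exact h2
  have h2 : (Ψ (g : Gal(Ω/ℚ))) ^ (k * N) = (cyc p Ω (g : Gal(Ω/ℚ)) ^ (-Hs)) ^ (k * N) := by
    rw [hψ, mul_pow, inv_pow] at h1
    exact (mul_inv_eq_one.1 h1).symm
  have h3 : ∏ x : Gal(Ω/ℚ) ⧸ Γ, detF ρ U hU (conjIn g x.out) = toQ (Ψ (g : Gal(Ω/ℚ))) := by
    rw [hΨcore, map_prod]
    exact Finset.prod_congr rfl fun x _ => (hδ _).symm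
  rw [h3, ← map_pow, h2, map_pow, map_zpow, ← zpow_natCast, ← zpow_mul]
  congr 1
  ring

end

end Pool.Agent.H43GS
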