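import Mathlib
import Pool.Agent.Lib.H43.GS.DetF2

/-!
# Semisimplicity at all primes, over arbitrary number fields
-/

namespace Pool.Agent.H43GS

open Polynomial Module Filter Topology NumberField TensorProduct Pool.Agent.GSem Pool.Agent.Ord
open Pool.Agent.GSD (IsCont IsSemisimple IsPolar)

section weight

variable {p : ℕ} [hp : Fact p.Prime] {Ω : Type*} [Field Ω] [CharZero Ω]
variable [IsAlgClosed Ω] [IsGalois ℚ Ω] {Γ : Subgroup Gal(Ω/ℚ)}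
variable {V : Type*} [AddCommGroup V] [Module ℚ_[p] V] [FiniteDimensional ℚ_[p] V]

/-- Purity determines the power of the cyclotomic character. -/
theorem transfer_weight [Fintype (Gal(Ω/ℚ) ⧸ Γ)] (ρ : Representation ℚ_[p] Γ V)
    (U : Submodule ℚ_[p] V) (hU : ∀ g, ∀ u ∈ U, ρ g u ∈ U) {q : ℕ} (hq : q.Prime)
    (hqp : q ≠ p) (φ : Γ.normalCore) (hφ : IsFrobAt q (φ : Gal(Ω/ℚ))) (w : ℤ)
    (hpure : ∀ x : Gal(Ω/ℚ) ⧸ Γ, IsPureOp q w (ρ (conjIn φ x.out))) (H : ℤ) (N : ℕ) (hN : 0 < N)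
    (hdet : (∏ x : Gal(Ω/ℚ) ⧸ Γ, detF ρ U hU (conjIn φ x.out)) ^ N =
      toQ (cyc p Ω (φ : Gal(Ω/ℚ))) ^ (-(H * N))) :
    2 * H = w * (Fintype.card (Gal(Ω/ℚ) ⧸ Γ) * finrank ℚ_[p] U) := by
  classical
  obtain ⟨J⟩ := exists_embedding p
  have hq0 : (0 : ℝ) < q := by exact_mod_cast hq.pos
  have hcyc : toQ (cyc p Ω (φ : Gal(Ω/ℚ))) = (q : ℚ_[p]) := by
    rw [toQ_apply, cyc_frob hq hqp hφ, PadicInt.coe_natCast]
  have h1 : ∀ x : Gal(Ω/ℚ) ⧸ Γ, ‖J (algebraMap ℚ_[p] _ (detF ρ U hU (conjIn φ x.out)))‖ ^ 2 =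
      ((q : ℝ) ^ (-w)) ^ finrank ℚ_[p] U := by
    intro x
    obtain ⟨P, hP0, hP, hT⟩ := hpure x
    exact norm_det J ((ρ (conjIn φ x.out)).restrict (hU _)) q w P ⟨hP0, hP⟩ (by
      ext u
      rw [aeval_restrict, hT]
      rfl)
  have h2 := congrArg (fun a => ‖J (algebraMap ℚ_[p] _ a)‖ ^ 2) hdet
  rw [hcyc, map_pow, map_pow, norm_pow, ← pow_mul, mul_comm N 2, pow_mul, map_prod, map_prod,
    norm_prod, ← Finset.prod_pow, Finset.prod_congr rfl fun x _ => h1 x, Finset.prod_const,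
    Finset.card_univ, map_zpow₀, map_zpow₀, map_natCast, map_natCast, norm_zpow,
    Complex.norm_natCast] at h2
  have h3 : (q : ℝ) ^ (-w * (finrank ℚ_[p] U * Fintype.card (Gal(Ω/ℚ) ⧸ Γ) * N : ℕ)) =
      (q : ℝ) ^ (-(H * N) * 2) := by
    rw [zpow_mul, zpow_mul, zpow_natCast, zpow_ofNat, pow_mul, pow_mul]
    exact h2
  have h4 := zpow_right_injective₀ hq0 (by exact_mod_cast hq.one_lt.ne') h3
  push_cast at h4
  have hN' : (N : ℤ) ≠ 0 := by exact_mod_cast hN.ne'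
  have h5 : (2 * H - w * (Fintype.card (Gal(Ω/ℚ) ⧸ Γ) * finrank ℚ_[p] U)) * N = 0 := by
    linear_combination h4
  have h6 := (mul_eq_zero.1 h5).resolve_right hN'
  linarith

/-- **Joint isotropic relations.** -/
theorem isotropic_relation_fam (hΓ : IsOpen (Γ : Set Gal(Ω/ℚ))) [Fintype (Gal(Ω/ℚ) ⧸ Γ)]
    (ι : Ω →+* PadicAlgCl p) (ρ : Representation ℚ_[p] Γ V) (hρ : IsCont ρ)
    (hHT : ∀ ι : Ω →+* PadicAlgCl p, ∃ (n : ℕ) (h : Fin n → ℤ)
      (e : Basis (Fin n) ℂ_[p] (ℂ_[p] ⊗[ℚ_[p]] V)), IsHTBasisAt ι ρ h e)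
    (w : ℤ) (B : V →ₗ[ℚ_[p]] V →ₗ[ℚ_[p]] ℚ_[p]) (hB : IsPolar ρ w B)
    {q : ℕ} (hq : q.Prime) (hqp : q ≠ p) (φ : Γ.normalCore) (hφ : IsFrobAt q (φ : Gal(Ω/ℚ)))
    (hpure : ∀ x : Gal(Ω/ℚ) ⧸ Γ, IsPureOp q w (ρ (conjIn φ x.out)))
    (U : Submodule ℚ_[p] V) (hU : ∀ g, ∀ u ∈ U, ρ g u ∈ U)
    (hiso : ∀ x ∈ U, ∀ y ∈ U, B x y = 0) (hU0 : U ≠ ⊥) :
    ∃ r N : ℕ, 0 < r ∧ 0 < N ∧ Even (w * (Fintype.card (Gal(Ω/ℚ) ⧸ Γ) * r)) ∧
      ∀ g : Γ.normalCore, RelFam r N (fun x : Gal(Ω/ℚ) ⧸ Γ =>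
      ((ρ (conjIn g x.out)).charpoly.map (algebraMap ℚ_[p] (AlgebraicClosure ℚ_[p]))).roots)
      (algebraMap ℚ_[p] (AlgebraicClosure ℚ_[p]) (toQ (cyc p Ω (g : Gal(Ω/ℚ))) ^ (-w))) := by
  obtain ⟨H, N, hN, hdet⟩ := exists_transfer_power hΓ ι ρ hρ hHT U hU
  have hH := transfer_weight ρ U hU hq hqp φ hφ w hpure H N hN (hdet φ)
  refine ⟨finrank ℚ_[p] U, N, ?_, hN, ⟨H, by linarith⟩, fun g => ?_⟩
  · rw [Nat.pos_iff_ne_zero]
    intro h0
    exact hU0 (Submodule.finrank_eq_zero.1 h0)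
  have hχ : toQ (cyc p Ω (g : Gal(Ω/ℚ))) ≠ 0 := toQ_ne_zero _
  have hBx : ∀ (x : Gal(Ω/ℚ) ⧸ Γ) (a b : V), B (ρ (conjIn g x.out) a) (ρ (conjIn g x.out) b) =
      toQ (cyc p Ω (g : Gal(Ω/ℚ))) ^ (-w) * B a b := by
    intro x a b
    have h1 := hB.2 (conjIn g x.out) a b
    have h2 : cyc p Ω ((conjIn g x.out : Γ) : Gal(Ω/ℚ)) = cyc p Ω (g : Gal(Ω/ℚ)) := cyc_conj _ _
    rw [h2] at h1
    exact h1
  choose z hz hzd using fun x : Gal(Ω/ℚ) ⧸ Γ =>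
    isotropic_charpoly (K := AlgebraicClosure ℚ_[p]) (ρ (conjIn g x.out)) B
    (toQ (cyc p Ω (g : Gal(Ω/ℚ))) ^ (-w)) (zpow_ne_zero _ hχ) hB.1 (hBx x) U (hU _) hiso
  refine (relFam_iff fun x => ((LinearMap.charpoly_monic _).map _)).2 ⟨z, hz, ?_⟩
  have h2 : (∏ x : Gal(Ω/ℚ) ⧸ Γ, detF ρ U hU (conjIn g x.out)) ^ (2 * N) =
      (toQ (cyc p Ω (g : Gal(Ω/ℚ))) ^ (-w)) ^
        (Fintype.card (Gal(Ω/ℚ) ⧸ Γ) * finrank ℚ_[p] U * N) := by
    rw [mul_comm 2 N, pow_mul, hdet g, ← zpow_natCast, ← zpow_mul, ← zpow_natCast, ← zpow_mul]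
    congr 1
    push_cast
    linear_combination (-(N : ℤ)) * hH
  have h3 := congrArg (algebraMap ℚ_[p] (AlgebraicClosure ℚ_[p])) h2
  rw [map_pow, map_pow, map_prod] at h3
  rw [Finset.prod_congr rfl fun x _ => hzd x]
  exact h3

end weight

section final

variable {p : ℕ} [hp : Fact p.Prime] {Ω : Type*} [Field Ω] [CharZero Ω] {Γ : Subgroup Gal(Ω/ℚ)}
variable {V : Type*} [AddCommGroup V] [Module ℚ_[p] V]

/-- `ρ` is Hodge–Tate at all places above `p`: for every embedding `ι` of `Ω` in the algebraic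
closure of `ℚ_[p]` there is a basis `e` of `ℂ_p ⊗ V` such that the decomposition group acts on `e i`
through a power of the cyclotomic character. -/
def IsHTEverywhere (ρ : Representation ℚ_[p] Γ V) : Prop :=
  ∀ ι : Ω →+* PadicAlgCl p, ∃ (n : ℕ) (h : Fin n → ℤ)
    (e : Basis (Fin n) ℂ_[p] (ℂ_[p] ⊗[ℚ_[p]] V)),
    ∀ (σ : Gal(PadicAlgCl p/ℚ_[p])) (g : Γ), Compat ι σ (g : Gal(Ω/ℚ)) → ∀ i,
      semi σ (ρ g) (e i) =
        algebraMap ℚ_[p] ℂ_[p] (toQ (cyc p Ω (g : Gal(Ω/ℚ))) ^ (-h i)) • e i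

end final

/-- The multisets `R i` contain (with multiplicities) multisets `S i` of the same cardinality
`r > 0` together with the multisets of all `lam / z`, `z ∈ S i`, such that the product over all
`S i` of `z ^ 2 / lam` is a root of unity; moreover `w` times the number of all these `z` is even.
-/
def HasJointRelation {κ K : Type*} [Fintype κ] [Field K] (w : ℤ) (R : κ → Multiset K)
    (lam : K) : Prop :=
  ∃ (r : ℕ) (S : κ → Multiset K), 0 < r ∧ Even (w * (Fintype.card κ * r)) ∧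
    (∀ i, Multiset.card (S i) = r ∧ S i + (S i).map (fun z => lam / z) ≤ R i) ∧
    ∃ N : ℕ, 0 < N ∧ (∏ i, (S i).prod) ^ (2 * N) = lam ^ (Fintype.card κ * r * N)

theorem semisimple_everywhere_numField {l p : ℕ} [Fact l.Prime] [Fact p.Prime] {Ω : Type*}
    [Field Ω] [CharZero Ω] [IsAlgClosure ℚ Ω] {Γ : Subgroup Gal(Ω/ℚ)}
    (hΓ : IsOpen (Γ : Set Gal(Ω/ℚ)))
    {U : Type*} [AddCommGroup U] [Module ℚ_[l] U] [FiniteDimensional ℚ_[l] U]
    {V : Type*} [AddCommGroup V] [Module ℚ_[p] V] [FiniteDimensional ℚ_[p] V]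
    (θ : Representation ℚ_[l] Γ U) (hθ : IsCont θ) (ρ : Representation ℚ_[p] Γ V) (hρ : IsCont ρ)
    (w : ℤ) (B : V →ₗ[ℚ_[p]] V →ₗ[ℚ_[p]] ℚ_[p]) (hB : IsPolar ρ w B) (hHT : IsHTEverywhere ρ)
    (b : ℕ) (hcompat : ∀ q : ℕ, b < q → q.Prime → ∀ φ : Γ, IsFrobAt q (φ : Gal(Ω/ℚ)) →
      ∃ P : ℚ[X], (∀ z : ℂ, aeval z P = 0 → ‖z‖ ^ 2 = (q : ℝ) ^ (-w)) ∧
        (θ φ).charpoly = P.map (algebraMap ℚ ℚ_[l]) ∧ (ρ φ).charpoly = P.map (algebraMap ℚ ℚ_[p]))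
    {κ : Type*} [Fintype κ] (x : κ → Gal(Ω/ℚ))
    (hx : Function.Bijective fun i => (x i : Gal(Ω/ℚ) ⧸ Γ))
    (g : Gal(Ω/ℚ)) (hg : ∀ y : Gal(Ω/ℚ), y⁻¹ * g * y ∈ Γ) (hrel : ¬ HasJointRelation w
      (fun i => ((θ ⟨(x i)⁻¹ * g * x i, hg (x i)⟩).charpoly.map
        (algebraMap ℚ_[l] (AlgebraicClosure ℚ_[l]))).roots)
      (algebraMap ℚ_[l] (AlgebraicClosure ℚ_[l]) (toQ (cyc l Ω g) ^ (-w)))) :
    IsSemisimple ρ := by
  classical
  have _ : IsAlgClosed Ω := IsAlgClosure.isAlgClosed ℚ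
  have _ : Algebra.IsAlgebraic ℚ Ω := IsAlgClosure.isAlgebraic
  have _ : IsGalois ℚ Ω := IsAlgClosure.isGalois ℚ Ω
  let ex : κ ≃ Gal(Ω/ℚ) ⧸ Γ := Equiv.ofBijective _ hx
  let _ : Fintype (Gal(Ω/ℚ) ⧸ Γ) := Fintype.ofEquiv κ ex
  have hcardκ : Fintype.card (Gal(Ω/ℚ) ⧸ Γ) = Fintype.card κ := (Fintype.card_congr ex).symm
  -- the element of the core
  have hgcore : g ∈ Γ.normalCore := by
    intro y
    have h1 := hg y⁻¹
    rwa [inv_inv] at h1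
  let gc : Γ.normalCore := ⟨g, hgcore⟩
  obtain ⟨ι⟩ : Nonempty (Ω →+* PadicAlgCl p) :=
    ⟨(IsAlgClosed.lift : Ω →ₐ[ℚ] PadicAlgCl p).toRingHom⟩
  -- a Frobenius element of the core
  obtain ⟨q, hq1, hq, φ, hφ⟩ : ∃ q : ℕ, max b p < q ∧ q.Prime ∧ ∃ φ : Γ.normalCore,
      IsFrobAt q (φ : Gal(Ω/ℚ)) := by
    by_contra hcon
    push Not at hcon
    have h1 := mem_closure_frob_core hΓ (max b p) gc ∅ (by
      intro q hq1 hq φ hφ
      exact absurd hφ (hcon q hq1 hq φ))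
    rw [closure_empty] at h1
    exact h1
  have hbq : b < q := lt_of_le_of_lt (le_max_left _ _) hq1
  have hpq : p < q := lt_of_le_of_lt (le_max_right _ _) hq1
  have hconj : ∀ {q : ℕ} {φ : Γ.normalCore}, IsFrobAt q (φ : Gal(Ω/ℚ)) → ∀ y : Gal(Ω/ℚ),
      IsFrobAt q ((conjIn φ y : Γ) : Gal(Ω/ℚ)) := fun hφ y => isFrobAt_conj hφ y
  have hpure : ∀ x : Gal(Ω/ℚ) ⧸ Γ, IsPureOp q w (ρ (conjIn φ x.out)) := by
    intro x
    obtain ⟨P, hP, -, hPp⟩ := hcompat q hbq hq _ (hconj hφ x.out)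
    refine ⟨P, ?_, hP, ?_⟩
    · rintro rfl
      rw [Polynomial.map_zero] at hPp
      exact (LinearMap.charpoly_monic (ρ (conjIn φ x.out))).ne_zero hPp
    · rw [← hPp]
      exact LinearMap.aeval_self_charpoly _
  apply isSemisimple_of_isotropic ρ w B hB
  intro W hW hiso
  by_contra hW0
  obtain ⟨r, N, hr, hN, heven, hrelp⟩ := isotropic_relation_fam hΓ ι ρ hρ hHT w B hB hq hpq.ne' φ
    hφ hpure W hW hiso hW0
  apply hrel
  set Kl := AlgebraicClosure ℚ_[l] with hKl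
  set Kp := AlgebraicClosure ℚ_[p] with hKp
  let ιl : Ω →+* Kl := (IsAlgClosed.lift : Ω →ₐ[ℚ] Kl).toRingHom
  let ιp : Ω →+* Kp := (IsAlgClosed.lift : Ω →ₐ[ℚ] Kp).toRingHom
  -- the relation holds for the powers of Frobenius elements
  have hfrob : ∀ q : ℕ, max b (max l p) < q → q.Prime → ∀ φ : Γ.normalCore,
      IsFrobAt q (φ : Gal(Ω/ℚ)) → ∀ m : ℕ,
      φ ^ m ∈ {g : Γ.normalCore | RelFam r N (fun x : Gal(Ω/ℚ) ⧸ Γ =>
        ((θ (conjIn g x.out)).charpoly.map (algebraMap ℚ_[l] Kl)).roots)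
      (algebraMap ℚ_[l] Kl (toQ (cyc l Ω (g : Gal(Ω/ℚ))) ^ (-w)))} := by
    intro q hq1 hq φ hφ m
    rw [Set.mem_ofPred_eq]
    have hbq : b < q := lt_of_le_of_lt (le_max_left _ _) hq1
    have hlq : l < q := lt_of_le_of_lt ((le_max_left _ _).trans (le_max_right _ _)) hq1
    have hpq : p < q := lt_of_le_of_lt ((le_max_right _ _).trans (le_max_right _ _)) hq1
    choose P _ hPl hPp using fun x : Gal(Ω/ℚ) ⧸ Γ => hcompat q hbq hq _ (hconj hφ x.out)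
    have h1 := hrelp φ
    have hcp : toQ (cyc p Ω (φ : Gal(Ω/ℚ))) = (q : ℚ_[p]) := by
      rw [toQ_apply, cyc_frob hq hpq.ne' hφ, PadicInt.coe_natCast]
    have hcl : toQ (cyc l Ω (φ : Gal(Ω/ℚ))) = (q : ℚ_[l]) := by
      rw [toQ_apply, cyc_frob hq hlq.ne' hφ, PadicInt.coe_natCast]
    have hRp : (fun x : Gal(Ω/ℚ) ⧸ Γ =>
        ((ρ (conjIn φ x.out)).charpoly.map (algebraMap ℚ_[p] Kp)).roots) =
        fun x => ((P x).map (algebraMap ℚ Ω)).roots.map ιp := by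
      funext x
      rw [hPp x, aroots_rat ιp (P x)]
    have hRl : (fun x : Gal(Ω/ℚ) ⧸ Γ =>
        ((θ (conjIn φ x.out)).charpoly.map (algebraMap ℚ_[l] Kl)).roots) =
        fun x => ((P x).map (algebraMap ℚ Ω)).roots.map ιl := by
      funext x
      rw [hPl x, aroots_rat ιl (P x)]
    rw [hRp, hcp] at h1
    have h2 : algebraMap ℚ_[p] Kp ((q : ℚ_[p]) ^ (-w)) = ιp ((q : Ω) ^ (-w)) := by
      rw [map_zpow₀, map_zpow₀, map_natCast, map_natCast]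
    rw [h2] at h1
    have h3 := (h1.of_map).map ιl
    have h4 : algebraMap ℚ_[l] Kl ((q : ℚ_[l]) ^ (-w)) = ιl ((q : Ω) ^ (-w)) := by
      rw [map_zpow₀, map_zpow₀, map_natCast, map_natCast]
    rw [← h4, ← hcl, ← hRl] at h3
    have h5 := h3.pow m
    have h6 : (algebraMap ℚ_[l] Kl (toQ (cyc l Ω (φ : Gal(Ω/ℚ))) ^ (-w))) ^ m =
        algebraMap ℚ_[l] Kl (toQ (cyc l Ω ((φ ^ m : Γ.normalCore) : Gal(Ω/ℚ))) ^ (-w)) := by
      rw [SubmonoidClass.coe_pow, ← map_pow, map_pow (cyc l Ω), map_pow toQ, ← zpow_natCast,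
        ← zpow_natCast, ← zpow_mul, ← zpow_mul, mul_comm]
    rw [h6] at h5
    have h7 : (fun x : Gal(Ω/ℚ) ⧸ Γ =>
        ((θ (conjIn (φ ^ m) x.out)).charpoly.map (algebraMap ℚ_[l] Kl)).roots) =
        fun x : Gal(Ω/ℚ) ⧸ Γ => ((((θ (conjIn φ x.out)).charpoly.map
          (algebraMap ℚ_[l] Kl)).roots).map (fun z => z ^ m)) := by
      funext x
      rw [← roots_charpoly_pow, ← map_pow θ, conjIn_pow]
    rw [h7]
    exact h5
  have hcl := mem_closure_frob_core hΓ (max b (max l p)) gc _ hfrob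
  -- continuity
  let bU := Module.finBasis ℚ_[l] U
  have hcont : ∀ (x : Gal(Ω/ℚ) ⧸ Γ) (i : ℕ), Continuous fun g : Γ.normalCore =>
      (θ (conjIn g x.out)).charpoly.coeff i := by
    intro x i
    have h1 : (fun g : Γ.normalCore => (θ (conjIn g x.out)).charpoly.coeff i) =
        (fun M : Matrix (Fin (finrank ℚ_[l] U)) (Fin (finrank ℚ_[l] U)) ℚ_[l] =>
          M.charpoly.coeff i) ∘ fun g : Γ.normalCore =>
            LinearMap.toMatrix bU bU (θ (conjIn g x.out)) := by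
      funext g
      rw [Function.comp_apply, LinearMap.charpoly_toMatrix]
    rw [h1]
    refine (continuous_charpoly_coeff i).comp (continuous_matrix fun a c => ?_)
    have h2 : (fun g : Γ.normalCore => LinearMap.toMatrix bU bU (θ (conjIn g x.out)) a c) =
        (fun g : Γ => (bU.coord a) (θ g (bU c))) ∘ fun g : Γ.normalCore => conjIn g x.out := by
      funext g
      rw [LinearMap.toMatrix_apply]
      rfl
    rw [h2]
    exact (hθ _ _).comp (continuous_conjIn x.out)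
  have htoQ : Continuous fun u : ℤ_[l]ˣ => (toQ u : ℚ_[l]) := by
    have h0 : Continuous (fun x : ℤ_[l] => (x : ℚ_[l])) := continuous_subtype_val
    exact h0.comp Units.continuous_val
  have hlamc : Continuous fun g : Γ.normalCore =>
      (toQ (cyc l Ω (g : Gal(Ω/ℚ))) ^ (-w) : ℚ_[l]) := by
    have h1 : (fun g : Γ.normalCore => (toQ (cyc l Ω (g : Gal(Ω/ℚ))) ^ (-w) : ℚ_[l])) =
        fun g : Γ.normalCore => toQ ((cyc l Ω (g : Gal(Ω/ℚ))) ^ (-w)) := by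
      funext g
      rw [map_zpow]
    rw [h1]
    exact htoQ.comp (((continuous_cyc l Ω).comp continuous_subtype_val).zpow _)
  have hfinal := relFam_of_mem_closure (K := ℚ_[l]) (L := PadicAlgCl l)
    (fun (x : Gal(Ω/ℚ) ⧸ Γ) (g : Γ.normalCore) => (θ (conjIn g x.out)).charpoly)
    (fun g => toQ (cyc l Ω (g : Gal(Ω/ℚ))) ^ (-w)) (n := finrank ℚ_[l] U)
    (fun _ g => LinearMap.charpoly_monic _) (fun _ g => LinearMap.charpoly_natDegree _) hcont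
    (fun g => zpow_ne_zero _ (toQ_ne_zero _)) hlamc hN hcl
  obtain ⟨S, hS, hle, hprod⟩ := hfinal
  refine ⟨r, fun i => S (ex i), hr, by rw [← hcardκ]; exact heven, fun i => ⟨hS _, ?_⟩, N, hN, ?_⟩
  · -- independence of the representatives
    have h1 := hle (ex i)
    have h2 : (x i)⁻¹ * (ex i).out ∈ Γ := by
      rw [← QuotientGroup.eq, QuotientGroup.out_eq']
      rfl
    set γ : Γ := ⟨(x i)⁻¹ * (ex i).out, h2⟩ with hγ
    have h3 : conjIn gc (ex i).out = γ⁻¹ * (⟨(x i)⁻¹ * g * x i, hg (x i)⟩ : Γ) * γ := by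
      apply Subtype.ext
      show (ex i).out⁻¹ * g * (ex i).out =
        ((x i)⁻¹ * (ex i).out)⁻¹ * ((x i)⁻¹ * g * x i) * ((x i)⁻¹ * (ex i).out)
      group
    have h4 : (θ (conjIn gc (ex i).out)).charpoly =
        (θ (⟨(x i)⁻¹ * g * x i, hg (x i)⟩ : Γ)).charpoly := by
      let eγ : U ≃ₗ[ℚ_[l]] U :=
        { toFun := θ γ⁻¹
          map_add' := map_add _
          map_smul' := map_smul _
          invFun := θ γ
          left_inv := fun u => by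
            change (θ γ * θ γ⁻¹) u = u
            rw [← map_mul, mul_inv_cancel, map_one]
            rfl
          right_inv := fun u => by
            change (θ γ⁻¹ * θ γ) u = u
            rw [← map_mul, inv_mul_cancel, map_one]
            rfl }
      have h5 : θ (conjIn gc (ex i).out) = eγ.conj (θ ⟨(x i)⁻¹ * g * x i, hg (x i)⟩) := by
        rw [h3, map_mul, map_mul]
        rfl
      rw [h5, LinearEquiv.charpoly_conj]
    beta_reduce at h1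
    rw [h4] at h1
    exact h1
  · rw [← hcardκ]
    rw [Equiv.prod_comp ex (fun y => (S y).prod)]
    exact hprod

end Pool.Agent.H43GS
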